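import Mathlib
import Pool.Agent.J4H95.PC.Base

set_option autoImplicit false

/-! Project PC, job A3: one stage of the transfer for the forms `n`, `3 ^ D n + r`. -/

namespace Pool.Agent.J4H94.PC

open Finset Filter Real
open Pool.Agent.J4H39 (T od ex pb ns rn stP stK lb GK GS Cm DV th0 Per id1 id1_pos id1_neg id1_nonneg id1_le_one par
  ex_mono ex_congr ex_add ex_mul ex_const)
open Pool.Agent.J4H26.PC
open Pool.Agent.J4H95.PC

/-- the product along the form of the state -/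
noncomputable def Fp (f g : ℤ → ℝ) (s : ℤ × ℤ) (z : ℤ) : ℝ := f z * g (par s z)

/-- the average over an aligned interval -/
noncomputable def Av (F : ℤ → ℝ) (M : ℕ) (v₀ : ℤ) (Y : ℕ) : ℝ :=
  (∑ i ∈ range (M * Y), F (M * v₀ + (i : ℕ))) / (M * Y)

theorem prod_bd {f g : ℤ → ℝ} (hf : Iv f) (hg : Iv g) (a b : ℤ) : |f a * g b| ≤ 1 := by
  rw [abs_mul]
  exact mul_le_one₀ (hf.bd a) (abs_nonneg _) (hg.bd b)

theorem Av_bd {F : ℤ → ℝ} (hF : ∀ n, |F n| ≤ 1) {M : ℕ} {v₀ : ℤ} {Y : ℕ} (hM : 1 ≤ M) (hY : 1 ≤ Y) :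
    |Av F M v₀ Y| ≤ 1 := by
  unfold Av
  have h0 : (0 : ℝ) < (M : ℝ) * Y := by
    have : (0 : ℝ) < M := by exact_mod_cast hM
    have : (0 : ℝ) < Y := by exact_mod_cast hY
    positivity
  rw [abs_div, abs_of_pos h0, div_le_one h0]
  refine (abs_sum_le_sum_abs _ _).trans ?_
  have : ∑ i ∈ range (M * Y), |F (M * v₀ + (i : ℕ))| ≤ ∑ i ∈ range (M * Y), (1 : ℝ) := sum_le_sum fun _ _ => hF _
  rw [sum_const, card_range, nsmul_eq_mul, mul_one] at this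
  exact_mod_cast this

theorem Av_half (F : ℤ → ℝ) {M : ℕ} (v₀ : ℤ) {Y : ℕ} (hM : 1 ≤ M) (hY : 1 ≤ Y) :
    (1 + Av F M v₀ Y) / 2 = (∑ i ∈ range (M * Y), (1 + F (M * v₀ + (i : ℕ))) / 2) / (M * Y) := by
  have hM0 : (0 : ℝ) < M := by exact_mod_cast hM
  have hY0 : (0 : ℝ) < Y := by exact_mod_cast hY
  unfold Av
  rw [← sum_div, sum_add_distrib, sum_const, card_range, nsmul_eq_mul, mul_one]
  push_cast
  field_simp

theorem abs_half {x : ℝ} (h : |x| ≤ 1) : 0 ≤ (1 + x) / 2 ∧ (1 + x) / 2 ≤ 1 := by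
  rw [abs_le] at h
  constructor <;> linarith [h.1, h.2]

/-- one stage, aligned intervals -/
theorem aligned {f g : ℤ → ℝ} (hf : Iv f) (hg : Iv g) {D : ℕ} {r : ℤ} {j k m a b o₀ : ℕ} {η : ℝ}
    (hmk : m + k ≤ o₀) (hη : ∀ r : ℤ, |r| ≤ 4 ^ (m + 1 + a) → ns k (0, r) ≤ η)
    (v₀ : ℤ) {Y : ℕ} (hY : 1 ≤ Y) (Lg : ℕ × (Fin 1 → ℤ × ℤ) → Prop)
    (hL : ∀ μ, Lg μ → o₀ ≤ μ.1 ∧ GS a b (μ.2 0) ∧ 0 ≤ (μ.2 0).1) :
    |Av (fun n => f n * g (3 ^ D * n + r)) (2 ^ j) v₀ Y -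
      ex j (fun w => Av (Fp f g (rn stP j ((D : ℤ), r) w)) (3 ^ od j w) v₀ Y)| ≤
      2 * (DV stK j (fun _ : Fin 1 => ((D : ℤ), r)) m + 4 * η +
        pb j (fun w => ¬ Lg (lb stK j (fun _ : Fin 1 => ((D : ℤ), r)) w))) := by
  classical
  obtain ⟨s₁, hs₁⟩ : ∃ s₁ : Fin 1 → ℤ × ℤ, s₁ = fun _ => ((D : ℤ), r) := ⟨_, rfl⟩
  rw [← hs₁]
  have hη0 : 0 ≤ η := (Pool.Agent.J4H39.ns_nonneg k (0, 0)).trans (hη 0 (by simp))
  have hY0 : (0 : ℝ) < Y := by exact_mod_cast hY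
  have hFp : ∀ (s : ℤ × ℤ) (z : ℤ), |Fp f g s z| ≤ 1 := fun s z => prod_bd hf hg _ _
  obtain ⟨gg, hgg⟩ : ∃ gg : ℕ × (Fin 1 → ℤ × ℤ) → ℤ → ℝ, gg = fun μ z => (1 + Fp f g (μ.2 0) z) / 2 := ⟨_, rfl⟩
  obtain ⟨V, hV⟩ : ∃ V : ℕ × (Fin 1 → ℤ × ℤ) → ℝ,
    V = fun μ => (1 + Av (Fp f g (μ.2 0)) (3 ^ μ.1) v₀ Y) / 2 := ⟨_, rfl⟩
  have hp3 : ∀ o : ℕ, 1 ≤ 3 ^ o := fun o => Nat.one_le_pow _ _ (by norm_num)
  have key := Pool.Agent.J4H39.stage stK s₁ (j := j) (m := m) gg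
    (fun μ z => by rw [hgg]; exact (abs_half (hFp _ _)).1)
    (fun μ z => by rw [hgg]; exact (abs_half (hFp _ _)).2) V
    (fun μ => by rw [hV]; exact (abs_half (Av_bd (hFp _) (hp3 _) hY)).1)
    (fun μ => by rw [hV]; exact (abs_half (Av_bd (hFp _) (hp3 _) hY)).2) v₀ Y (δ := 4 * η) (by positivity)
    Lg (fun μ h => by have := (hL μ h).1; omega) (by
      intro w hw hgood c hc0 hc1 _
      obtain ⟨h1, h2, h3⟩ := hL _ hgood
      obtain ⟨μ, hμ⟩ : ∃ μ, μ = lb stK j s₁ ((w : ℕ) : ℤ) := ⟨_, rfl⟩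
      rw [← hμ] at h1 h2 h3 ⊢
      obtain ⟨o, ho⟩ : ∃ o, o = μ.1 := ⟨_, rfl⟩
      rw [← ho] at h1 ⊢
      obtain ⟨d, hd⟩ := Int.eq_ofNat_of_zero_le h3
      obtain ⟨r', hr'⟩ : ∃ r', r' = (μ.2 0).2 := ⟨_, rfl⟩
      have hs' : μ.2 0 = ((d : ℤ), r') := by rw [hr', ← hd]
      have hda : d ≤ a := by
        have := h2.1
        rw [hd, abs_of_nonneg (by positivity)] at this
        exact_mod_cast this
      obtain ⟨Z, hZ⟩ : ∃ Z, Z = 3 ^ (o - m) * Y := ⟨_, rfl⟩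
      rw [← hZ]
      have hkZ : 2 ^ k ≤ Z := by
        rw [hZ]
        calc 2 ^ k ≤ 3 ^ k := Nat.pow_le_pow_left (by norm_num) k
          _ ≤ 3 ^ (o - m) := Nat.pow_le_pow_right (by norm_num) (by omega)
          _ ≤ 3 ^ (o - m) * Y := Nat.le_mul_of_pos_right _ hY
      have hkZr : (2 : ℝ) ^ k ≤ Z := by exact_mod_cast hkZ
      have hZ0 : (0 : ℝ) < Z := lt_of_lt_of_le (by positivity) hkZr
      obtain ⟨A, hA⟩ : ∃ A : ℤ → ℝ, A = fun c => ∑ i ∈ range Z, gg μ (c + 3 ^ m * (3 ^ (o - m) * v₀ + (i : ℕ))) :=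
        ⟨_, rfl⟩
      -- the classes are similar
      have claim1 : ∀ c c' : ℤ, 0 ≤ c → c < 3 ^ m → 0 ≤ c' → c' < 3 ^ m → |A c - A c'| ≤ 4 * η * Z := by
        intro c c' a1 a2 a3 a4
        obtain ⟨h, hh⟩ : ∃ h, h = c - c' := ⟨_, rfl⟩
        have hhb : |h| ≤ 4 ^ m := by
          have b1 : (3 : ℤ) ^ m ≤ 4 ^ m := pow_le_pow_left₀ (by norm_num) (by norm_num) m
          rw [hh, abs_le]
          constructor <;> linarith
        have hb1 : ns k (0, h) ≤ η := hη h (hhb.trans (pow_le_pow_right₀ (by norm_num) (by omega)))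
        have hb2 : ns k (0, 3 ^ d * h) ≤ η := by
          apply hη
          rw [abs_mul, abs_of_pos (by positivity : (0 : ℤ) < 3 ^ d)]
          have b2 : (3 : ℤ) ^ d ≤ 4 ^ a :=
            (pow_le_pow_left₀ (by norm_num) (by norm_num) d).trans (pow_le_pow_right₀ (by norm_num) hda)
          calc (3 : ℤ) ^ d * |h| ≤ 4 ^ a * 4 ^ m := mul_le_mul b2 hhb (abs_nonneg _) (by positivity)
            _ = 4 ^ (a + m) := by rw [pow_add]
            _ ≤ 4 ^ (m + 1 + a) := pow_le_pow_right₀ (by norm_num) (by omega)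
        rw [hA]
        simp only
        rw [← sum_sub_distrib]
        refine (abs_sum_le_sum_abs _ _).trans ?_
        have hpt : ∀ i ∈ range Z, |gg μ (c + 3 ^ m * (3 ^ (o - m) * v₀ + (i : ℕ))) -
            gg μ (c' + 3 ^ m * (3 ^ (o - m) * v₀ + (i : ℕ)))| ≤
            id1 (rn stP k (0, h) (3 ^ m * ((i : ℕ) : ℤ) + (c' + 3 ^ m * (3 ^ (o - m) * v₀))) ≠ (0, 0)) +
            id1 (rn stP k (0, 3 ^ d * h) (3 ^ (d + m) * ((i : ℕ) : ℤ) +
              (3 ^ d * (c' + 3 ^ m * (3 ^ (o - m) * v₀)) + r')) ≠ (0, 0)) := by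
          intro i _
          obtain ⟨z, hz⟩ : ∃ z : ℤ, z = c' + 3 ^ m * (3 ^ (o - m) * v₀ + (i : ℕ)) := ⟨_, rfl⟩
          have e1 : c + 3 ^ m * (3 ^ (o - m) * v₀ + (i : ℕ)) = z + h := by rw [hz, hh]; ring
          have e2 : 3 ^ m * ((i : ℕ) : ℤ) + (c' + 3 ^ m * (3 ^ (o - m) * v₀)) = z := by rw [hz]; ring
          have e3 : 3 ^ (d + m) * ((i : ℕ) : ℤ) + (3 ^ d * (c' + 3 ^ m * (3 ^ (o - m) * v₀)) + r') =
              3 ^ d * z + r' := by rw [hz, pow_add]; ring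
          rw [e1, ← hz, e2, e3, hgg]
          simp only
          rw [hs']
          unfold Fp
          rw [Pool.Agent.J4H39.par_eq (Pool.Agent.J4H39.rel_nat d r' (z + h)),
            Pool.Agent.J4H39.par_eq (Pool.Agent.J4H39.rel_nat d r' z)]
          have e4 : 3 ^ d * (z + h) + r' = 3 ^ d * z + r' + 3 ^ d * h := by ring
          rw [e4]
          have hpd := pair_diff hf hg (Pool.Agent.J4H39.rel_zero h z)
            (Pool.Agent.J4H39.rel_zero (3 ^ d * h) (3 ^ d * z + r')) k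
          have e5 : (1 + f (z + h) * g (3 ^ d * z + r' + 3 ^ d * h)) / 2 - (1 + f z * g (3 ^ d * z + r')) / 2 =
              (f (z + h) * g (3 ^ d * z + r' + 3 ^ d * h) - f z * g (3 ^ d * z + r')) / 2 := by ring
          rw [e5, abs_div, abs_of_pos (by norm_num : (0 : ℝ) < 2)]
          linarith
        refine (sum_le_sum hpt).trans ?_
        rw [sum_add_distrib]
        have q1 := Pool.Agent.J4H39.cnt_aff (Pool.Agent.J4H39.per_ns k (0, h)) (Pool.Agent.J4H39.pow3_odd m)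
          (c' + 3 ^ m * (3 ^ (o - m) * v₀)) Z
        have q2 := Pool.Agent.J4H39.cnt_aff (Pool.Agent.J4H39.per_ns k (0, 3 ^ d * h))
          (Pool.Agent.J4H39.pow3_odd (d + m)) (3 ^ d * (c' + 3 ^ m * (3 ^ (o - m) * v₀)) + r') Z
        have q3 : ((Z : ℝ) + 2 ^ k) * pb k (fun y => rn stP k (0, h) y ≠ (0, 0)) ≤ (2 * Z) * η :=
          mul_le_mul (by linarith) hb1 (Pool.Agent.J4H39.pb_nonneg _ _) (by positivity)
        have q4 : ((Z : ℝ) + 2 ^ k) * pb k (fun y => rn stP k (0, 3 ^ d * h) y ≠ (0, 0)) ≤ (2 * Z) * η :=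
          mul_le_mul (by linarith) hb2 (Pool.Agent.J4H39.pb_nonneg _ _) (by positivity)
        linarith
      -- the average over the classes
      have claim2 : (Z : ℝ) * V μ = (∑ c₀ ∈ range (3 ^ m), A ((c₀ : ℕ) : ℤ)) / 3 ^ m := by
        have e1 : 3 ^ o * Y = 3 ^ m * Z := by
          rw [hZ, ← mul_assoc, ← pow_add]; congr 2; omega
        have e1r : (((3 ^ o : ℕ) : ℝ)) * Y = 3 ^ m * Z := by exact_mod_cast e1
        rw [hV]
        simp only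
        rw [← ho, Av_half _ _ (hp3 _) hY, e1, Pool.Agent.J4H39.sum_block, sum_comm, e1r]
        have e2 : ∑ y ∈ range (3 ^ m), ∑ x ∈ range Z, (1 + Fp f g (μ.2 0) (((3 ^ o : ℕ) : ℤ) * v₀ +
            ((y + 3 ^ m * x : ℕ) : ℤ))) / 2 = ∑ c₀ ∈ range (3 ^ m), A ((c₀ : ℕ) : ℤ) := by
          apply sum_congr rfl
          intro c₀ _
          rw [hA, hgg]
          simp only
          apply sum_congr rfl
          intro i _
          have e3 : (3 : ℤ) ^ o = 3 ^ m * 3 ^ (o - m) := by rw [← pow_add]; congr 1; omega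
          have e4 : ((3 ^ o : ℕ) : ℤ) * v₀ + ((c₀ + 3 ^ m * i : ℕ) : ℤ) =
              (c₀ : ℤ) + 3 ^ m * (3 ^ (o - m) * v₀ + (i : ℕ)) := by
            push_cast
            rw [e3]; ring
          rw [e4]
        rw [e2]
        field_simp
      have hfin : |A c - Z * V μ| ≤ 4 * η * Z := by
        have hp : (0 : ℝ) < 3 ^ m := by positivity
        have e5 : A c - Z * V μ = (∑ c₀ ∈ range (3 ^ m), (A c - A ((c₀ : ℕ) : ℤ))) / 3 ^ m := by
          rw [claim2, sum_sub_distrib, sum_const, card_range, nsmul_eq_mul]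
          push_cast
          field_simp
        rw [e5, abs_div, abs_of_pos hp, div_le_iff₀ hp]
        refine (abs_sum_le_sum_abs _ _).trans ?_
        have : ∑ c₀ ∈ range (3 ^ m), |A c - A ((c₀ : ℕ) : ℤ)| ≤ ∑ c₀ ∈ range (3 ^ m), 4 * η * Z := by
          apply sum_le_sum
          intro c₀ hc₀
          rw [mem_range] at hc₀
          exact claim1 c _ hc0 hc1 (by positivity) (by exact_mod_cast hc₀)
        rw [sum_const, card_range, nsmul_eq_mul] at this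
        push_cast at this
        linarith
      rw [hA] at hfin
      exact hfin)
  -- the identity
  obtain ⟨G, hG⟩ : ∃ G : ℤ → ℝ, G = fun n => f n * g (3 ^ D * n + r) := ⟨_, rfl⟩
  have e1 : ex j (fun w => ∑ v ∈ range Y, gg (lb stK j s₁ w) (T^[j] w % 3 ^ od j w + 3 ^ od j w * (v₀ + (v : ℕ)))) =
      (∑ u ∈ range (2 ^ j * Y), (1 + G (((2 ^ j : ℕ) : ℤ) * v₀ + (u : ℕ))) / 2) / 2 ^ j := by
    unfold ex
    congr 1
    rw [Pool.Agent.J4H39.sum_block, sum_comm]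
    apply sum_congr rfl
    intro v _
    apply sum_congr rfl
    intro w hw
    rw [mem_range] at hw
    rw [Pool.Agent.J4H39.T_mod j (by positivity) (by exact_mod_cast hw), ← Pool.Agent.J4H39.T_add]
    obtain ⟨n, hn⟩ : ∃ n : ℤ, n = ((w : ℕ) : ℤ) + 2 ^ j * (v₀ + (v : ℕ)) := ⟨_, rfl⟩
    have h2 : (lb stK j s₁ ((w : ℕ) : ℤ)).2 0 = rn stP j ((D : ℤ), r) n := by
      have h3 : (lb stK j s₁ ((w : ℕ) : ℤ)).2 0 = rn stP j ((D : ℤ), r) ((w : ℕ) : ℤ) := by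
        unfold lb
        simp only
        rw [Pool.Agent.J4H39.rn_stK_apply, hs₁]
      rw [h3, hn]
      exact (Pool.Agent.J4H39.per_rn stP _ (le_refl j) ((w : ℕ) : ℤ) (v₀ + (v : ℕ))).symm
    rw [hgg]
    simp only
    rw [h2, ← hn]
    unfold Fp
    rw [Pool.Agent.J4H39.par_eq ((Pool.Agent.J4H39.rel_rn (Pool.Agent.J4H39.rel_nat D r n) j).1),
      Iv_iter hf, Iv_iter hg, hG]
    have h4 : ((2 ^ j : ℕ) : ℤ) * v₀ + ((w + 2 ^ j * v : ℕ) : ℤ) = n := by rw [hn]; push_cast; ring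
    rw [h4]
  rw [e1] at key
  have e2 : (1 + Av G (2 ^ j) v₀ Y) / 2 = (∑ u ∈ range (2 ^ j * Y), (1 + G (((2 ^ j : ℕ) : ℤ) * v₀ + (u : ℕ))) / 2) /
      2 ^ j / Y := by
    rw [Av_half G v₀ (Nat.one_le_pow _ _ (by norm_num)) hY]
    push_cast
    rw [div_div]
  have e3 : ex j (fun w => V (lb stK j s₁ w)) =
      (1 + ex j (fun w => Av (Fp f g (rn stP j ((D : ℤ), r) w)) (3 ^ od j w) v₀ Y)) / 2 := by
    have e4 : ∀ w, V (lb stK j s₁ w) = 1 / 2 + (1 / 2) * Av (Fp f g (rn stP j ((D : ℤ), r) w)) (3 ^ od j w) v₀ Y := by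
      intro w
      have h3 : (lb stK j s₁ w).2 0 = rn stP j ((D : ℤ), r) w := by
        unfold lb
        simp only
        rw [Pool.Agent.J4H39.rn_stK_apply, hs₁]
      rw [hV]
      simp only
      rw [h3]
      have h5 : (lb stK j s₁ w).1 = od j w := rfl
      rw [h5]; ring
    rw [ex_congr e4, ex_add, ex_const, ex_mul]; ring
  rw [e3] at key
  obtain ⟨S, hS⟩ : ∃ S : ℝ, S = (∑ u ∈ range (2 ^ j * Y), (1 + G (((2 ^ j : ℕ) : ℤ) * v₀ + (u : ℕ))) / 2) / 2 ^ j :=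
    ⟨_, rfl⟩
  rw [← hS] at key e2
  obtain ⟨E, hE⟩ : ∃ E : ℝ, E = ex j (fun w => Av (Fp f g (rn stP j ((D : ℤ), r) w)) (3 ^ od j w) v₀ Y) := ⟨_, rfl⟩
  rw [← hE] at key ⊢
  rw [← hG]
  have e6 : Av G (2 ^ j) v₀ Y - E = 2 * ((S - Y * ((1 + E) / 2)) / Y) := by
    have : S = Y * ((1 + Av G (2 ^ j) v₀ Y) / 2) := by rw [e2]; field_simp
    rw [this]
    field_simp
    ring
  rw [e6, abs_mul, abs_of_pos (by norm_num : (0 : ℝ) < 2), abs_div, abs_of_pos hY0]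
  apply mul_le_mul_of_nonneg_left _ (by norm_num)
  rw [div_le_iff₀ hY0]
  linarith

end Pool.Agent.J4H94.PC
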