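import Mathlib
import Pool.Agent.J4H94.PC.Ft1

set_option autoImplicit false

/-! Project PC, job A3: one stage of the transfer in terms of `cc`; the drift of the exponent. -/

namespace Pool.Agent.J4H94.PC

open Finset Filter Real
open Pool.Agent.J4H39 (T od ex pb ns rn stP stK lb GK GS Cm DV th0 Per id1 id1_pos id1_neg id1_nonneg id1_le_one par
  ex_mono ex_congr ex_add ex_mul ex_const)
open Pool.Agent.J4H26.PC
open Pool.Agent.J4H95.PC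

theorem Av_cc {F : ℤ → ℝ} (hF : ∀ n, |F n| ≤ 1) {M : ℕ} (hM : 1 ≤ M) {κ U : ℝ} (hU : 2 ≤ U) :
    |(∑ n ∈ Finset.Ico ⌈κ * (M * U)⌉ ⌈κ * (M * U) + M * U⌉, F n) / max (M * U) 1 -
      Av F M ⌊κ * U⌋ (⌊κ * U + U⌋ - ⌊κ * U⌋).toNat| ≤ 5 / U := by
  obtain ⟨v₀, hv₀⟩ : ∃ v₀, v₀ = ⌊κ * U⌋ := ⟨_, rfl⟩
  obtain ⟨v₁, hv₁⟩ : ∃ v₁, v₁ = ⌊κ * U + U⌋ := ⟨_, rfl⟩
  obtain ⟨Y, hY⟩ : ∃ Y, Y = (v₁ - v₀).toNat := ⟨_, rfl⟩
  rw [← hv₀, ← hv₁, ← hY]
  have hM1 : (1 : ℝ) ≤ M := by exact_mod_cast hM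
  have hM0 : (0 : ℝ) < M := by linarith
  have hU0 : 0 < U := by linarith
  have f1 := Int.floor_le (κ * U)
  have f2 := Int.lt_floor_add_one (κ * U)
  have f3 := Int.floor_le (κ * U + U)
  have f4 := Int.lt_floor_add_one (κ * U + U)
  rw [← hv₀] at f1 f2
  rw [← hv₁] at f3 f4
  have hle : v₀ + 1 ≤ v₁ := by
    have : (v₀ : ℝ) < v₁ := by linarith
    have : v₀ < v₁ := by exact_mod_cast this
    omega
  have hYz : ((Y : ℕ) : ℤ) = v₁ - v₀ := by rw [hY]; exact Int.toNat_of_nonneg (by omega)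
  have hYr : (Y : ℝ) = v₁ - v₀ := by exact_mod_cast hYz
  have hY1 : (1 : ℝ) ≤ Y := by
    have : (1 : ℤ) ≤ (Y : ℕ) := by omega
    exact_mod_cast this
  have hYU : |(Y : ℝ) - U| ≤ 1 := by rw [hYr, abs_le]; constructor <;> linarith
  have hMU : 1 ≤ (M : ℝ) * U := by nlinarith
  have hMU0 : 0 < (M : ℝ) * U := by linarith
  have hMY0 : 0 < (M : ℝ) * Y := by nlinarith
  rw [max_eq_left hMU]
  unfold Av
  have e1 : ∑ i ∈ range (M * Y), F (M * v₀ + (i : ℕ)) = ∑ n ∈ Finset.Ico ((M : ℤ) * v₀) (M * v₁), F n := by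
    rw [← range_blocks]
    congr 2
    push_cast
    rw [hYz]; ring
  rw [e1]
  obtain ⟨A, hA⟩ : ∃ A, A = ∑ n ∈ Finset.Ico ⌈κ * (M * U)⌉ ⌈κ * (M * U) + M * U⌉, F n := ⟨_, rfl⟩
  obtain ⟨B, hB⟩ : ∃ B, B = ∑ n ∈ Finset.Ico ((M : ℤ) * v₀) (M * v₁), F n := ⟨_, rfl⟩
  rw [← hA, ← hB]
  have hAB : |A - B| ≤ 4 * M := by
    have h1 := sum_Ico_diff (B := 1) (by norm_num) hF ⌈κ * (M * U)⌉ ⌈κ * (M * U) + M * U⌉ ((M : ℤ) * v₀) (M * v₁)
    rw [← hA, ← hB, one_mul] at h1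
    refine h1.trans ?_
    have c1 := Int.le_ceil (κ * (M * U))
    have c2 := Int.ceil_lt_add_one (κ * (M * U))
    have c3 := Int.le_ceil (κ * (M * U) + M * U)
    have c4 := Int.ceil_lt_add_one (κ * (M * U) + M * U)
    have g1 : |((⌈κ * (M * U)⌉ : ℤ) : ℝ) - (((M : ℤ) * v₀ : ℤ) : ℝ)| ≤ M + 1 := by
      push_cast
      have a1 : (M : ℝ) * v₀ ≤ M * (κ * U) := mul_le_mul_of_nonneg_left f1 hM0.le
      have a2 : (M : ℝ) * (κ * U) ≤ M * (v₀ + 1) := mul_le_mul_of_nonneg_left f2.le hM0.le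
      rw [abs_le]
      constructor <;> linarith
    have g2 : |((⌈κ * (M * U) + M * U⌉ : ℤ) : ℝ) - (((M : ℤ) * v₁ : ℤ) : ℝ)| ≤ M + 1 := by
      push_cast
      have a1 : (M : ℝ) * v₁ ≤ M * (κ * U + U) := mul_le_mul_of_nonneg_left f3 hM0.le
      have a2 : (M : ℝ) * (κ * U + U) ≤ M * (v₁ + 1) := mul_le_mul_of_nonneg_left f4.le hM0.le
      rw [abs_le]
      constructor <;> linarith
    linarith
  have hBb : |B| ≤ M * Y := by
    rw [hB, ← e1]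
    refine (abs_sum_le_sum_abs _ _).trans ?_
    have : ∑ i ∈ range (M * Y), |F (M * v₀ + (i : ℕ))| ≤ ∑ i ∈ range (M * Y), (1 : ℝ) := sum_le_sum fun _ _ => hF _
    rw [sum_const, card_range, nsmul_eq_mul, mul_one] at this
    exact_mod_cast this
  have e2 : A / (M * U) - B / (M * Y) = (A - B) / (M * U) + B / (M * Y) * ((Y - U) / U) := by
    have : (Y : ℝ) ≠ 0 := by linarith
    field_simp
    ring
  rw [e2]
  refine (abs_add_le _ _).trans ?_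
  have h1 : |(A - B) / (M * U)| ≤ 4 / U := by
    rw [abs_div, abs_of_pos hMU0, div_le_div_iff₀ hMU0 hU0]
    calc |A - B| * U ≤ 4 * M * U := mul_le_mul_of_nonneg_right hAB hU0.le
      _ = 4 * (M * U) := by ring
  have h2 : |B / (M * Y) * ((Y - U) / U)| ≤ 1 / U := by
    rw [abs_mul, abs_div, abs_of_pos hMY0, abs_div, abs_of_pos hU0]
    have a1 : |B| / (M * Y) ≤ 1 := by rw [div_le_one hMY0]; exact hBb
    have a2 : |(Y : ℝ) - U| / U ≤ 1 / U := div_le_div_of_nonneg_right hYU hU0.le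
    calc |B| / (M * Y) * (|(Y : ℝ) - U| / U) ≤ 1 * (1 / U) :=
          mul_le_mul a1 a2 (by positivity) (by norm_num)
      _ = 1 / U := one_mul _
  have e3 : 5 / U = 4 / U + 1 / U := by ring
  rw [e3]
  linarith

theorem cc_bd {f g : ℤ → ℝ} (hf : Iv f) (hg : Iv g) (κ : ℝ) {X : ℝ} (hX : 0 ≤ X) (D : ℕ) (r : ℤ) :
    |cc f g κ X D r| ≤ 2 := by
  unfold cc
  have h0 : (0 : ℝ) < max X 1 := lt_of_lt_of_le one_pos (le_max_right _ _)
  rw [abs_div, abs_of_pos h0, div_le_iff₀ h0]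
  refine (abs_sum_le_sum_abs _ _).trans ?_
  have h1 : ∑ n ∈ Finset.Ico ⌈κ * X⌉ ⌈κ * X + X⌉, |f n * g (3 ^ D * n + r)| ≤
      ∑ n ∈ Finset.Ico ⌈κ * X⌉ ⌈κ * X + X⌉, (1 : ℝ) := sum_le_sum fun _ _ => prod_bd hf hg _ _
  refine h1.trans ?_
  rw [sum_const, Int.card_Ico, nsmul_eq_mul, mul_one]
  have := toNat_le (κ := κ) hX
  have a1 := le_max_left X 1
  have a2 := le_max_right X 1
  linarith

/-- one stage -/
theorem stage_cc {f g : ℤ → ℝ} (hf : Iv f) (hg : Iv g) {D : ℕ} {r : ℤ} {j k m a b o₀ : ℕ} {η : ℝ}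
    (hmk : m + k ≤ o₀) (hη : ∀ r : ℤ, |r| ≤ 4 ^ (m + 1 + a) → ns k (0, r) ≤ η)
    (Lg : ℕ × (Fin 1 → ℤ × ℤ) → Prop)
    (hL : ∀ μ, Lg μ → o₀ ≤ μ.1 ∧ GS a b (μ.2 0) ∧ 0 ≤ (μ.2 0).1) (κ : ℝ) {X : ℝ} (hX : (2 : ℝ) ^ (j + 1) ≤ X) :
    |cc f g κ X D r - ex j (fun y => cc f g κ (3 ^ od j y * X / 2 ^ j) (rn stP j ((D : ℤ), r) y).1.toNat
      (rn stP j ((D : ℤ), r) y).2)| ≤
      10 * (2 ^ j / X) + 2 * (DV stK j (fun _ : Fin 1 => ((D : ℤ), r)) m) + 8 * η +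
        5 * pb j (fun w => ¬ Lg (lb stK j (fun _ : Fin 1 => ((D : ℤ), r)) w)) := by
  classical
  obtain ⟨U, hUd⟩ : ∃ U : ℝ, U = X / 2 ^ j := ⟨_, rfl⟩
  have h2j : (0 : ℝ) < 2 ^ j := by positivity
  have hX0 : 0 < X := lt_of_lt_of_le (by positivity) hX
  have hU : 2 ≤ U := by
    rw [hUd, le_div_iff₀ h2j]
    calc 2 * (2 : ℝ) ^ j = 2 ^ (j + 1) := by ring
      _ ≤ X := hX
  have hU0 : 0 < U := by linarith
  obtain ⟨v₀, hv₀⟩ : ∃ v₀, v₀ = ⌊κ * U⌋ := ⟨_, rfl⟩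
  obtain ⟨Y, hY⟩ : ∃ Y, Y = (⌊κ * U + U⌋ - ⌊κ * U⌋).toNat := ⟨_, rfl⟩
  have hY1 : 1 ≤ Y := by
    have f1 := Int.floor_le (κ * U)
    have f4 := Int.lt_floor_add_one (κ * U + U)
    have : ((⌊κ * U⌋ : ℤ) : ℝ) < ((⌊κ * U + U⌋ : ℤ) : ℝ) := by linarith
    have : ⌊κ * U⌋ < ⌊κ * U + U⌋ := by exact_mod_cast this
    omega
  have hFb : ∀ (D : ℕ) (r : ℤ) (n : ℤ), |(fun n => f n * g (3 ^ D * n + r)) n| ≤ 1 := fun _ _ _ => prod_bd hf hg _ _
  -- the left side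
  have hXU : X = ((2 ^ j : ℕ) : ℝ) * U := by rw [hUd]; push_cast; field_simp
  have s1 : |cc f g κ X D r - Av (fun n => f n * g (3 ^ D * n + r)) (2 ^ j) v₀ Y| ≤ 5 / U := by
    have := Av_cc (hFb D r) (M := 2 ^ j) (Nat.one_le_pow _ _ (by norm_num)) (κ := κ) hU
    rw [← hXU, ← hY, ← hv₀] at this
    exact this
  have s2 := aligned hf hg (D := D) (r := r) (j := j) hmk hη v₀ hY1 Lg hL
  -- the right side
  have s3 : |ex j (fun w => Av (Fp f g (rn stP j ((D : ℤ), r) w)) (3 ^ od j w) v₀ Y) -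
      ex j (fun y => cc f g κ (3 ^ od j y * X / 2 ^ j) (rn stP j ((D : ℤ), r) y).1.toNat
      (rn stP j ((D : ℤ), r) y).2)| ≤ 5 / U + 3 * pb j (fun w => ¬ Lg (lb stK j (fun _ : Fin 1 => ((D : ℤ), r)) w)) := by
    have hpt : ∀ w, |Av (Fp f g (rn stP j ((D : ℤ), r) w)) (3 ^ od j w) v₀ Y -
        cc f g κ (3 ^ od j w * X / 2 ^ j) (rn stP j ((D : ℤ), r) w).1.toNat (rn stP j ((D : ℤ), r) w).2| ≤
        5 / U + 3 * id1 (¬ Lg (lb stK j (fun _ : Fin 1 => ((D : ℤ), r)) w)) := by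
      intro w
      have h5 : 0 ≤ 5 / U := by positivity
      have h3 : (lb stK j (fun _ : Fin 1 => ((D : ℤ), r)) w).2 0 = rn stP j ((D : ℤ), r) w := by
        unfold lb
        simp only
        rw [Pool.Agent.J4H39.rn_stK_apply]
      have hXw : 3 ^ od j w * X / 2 ^ j = ((3 ^ od j w : ℕ) : ℝ) * U := by rw [hUd]; push_cast; ring
      by_cases hg1 : Lg (lb stK j (fun _ : Fin 1 => ((D : ℤ), r)) w)
      · rw [id1_neg (fun h => h hg1), mul_zero, add_zero]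
        obtain ⟨_, _, h4⟩ := hL _ hg1
        rw [h3] at h4
        obtain ⟨d, hd⟩ := Int.eq_ofNat_of_zero_le h4
        obtain ⟨r', hr'⟩ : ∃ r', r' = (rn stP j ((D : ℤ), r) w).2 := ⟨_, rfl⟩
        have hs' : rn stP j ((D : ℤ), r) w = ((d : ℤ), r') := by rw [hr', ← hd]
        rw [hs']
        simp only [Int.toNat_natCast]
        have e1 : Fp f g ((d : ℤ), r') = fun n => f n * g (3 ^ d * n + r') := by
          funext n
          unfold Fp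
          rw [Pool.Agent.J4H39.par_eq (Pool.Agent.J4H39.rel_nat d r' n)]
        rw [e1, abs_sub_comm, hXw]
        have := Av_cc (hFb d r') (M := 3 ^ od j w) (Nat.one_le_pow _ _ (by norm_num)) (κ := κ) hU
        rw [← hY, ← hv₀] at this
        exact this
      · rw [id1_pos hg1]
        have a1 : |Av (Fp f g (rn stP j ((D : ℤ), r) w)) (3 ^ od j w) v₀ Y| ≤ 1 :=
          Av_bd (fun z => prod_bd hf hg _ _) (Nat.one_le_pow _ _ (by norm_num)) hY1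
        have a2 : |cc f g κ (3 ^ od j w * X / 2 ^ j) (rn stP j ((D : ℤ), r) w).1.toNat
          (rn stP j ((D : ℤ), r) w).2| ≤ 2 := cc_bd hf hg κ (by positivity) _ _
        have a3 := abs_sub (Av (Fp f g (rn stP j ((D : ℤ), r) w)) (3 ^ od j w) v₀ Y)
          (cc f g κ (3 ^ od j w * X / 2 ^ j) (rn stP j ((D : ℤ), r) w).1.toNat (rn stP j ((D : ℤ), r) w).2)
        linarith
    have e1 : ex j (fun w => Av (Fp f g (rn stP j ((D : ℤ), r) w)) (3 ^ od j w) v₀ Y) -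
      ex j (fun y => cc f g κ (3 ^ od j y * X / 2 ^ j) (rn stP j ((D : ℤ), r) y).1.toNat
      (rn stP j ((D : ℤ), r) y).2) = ex j (fun w => Av (Fp f g (rn stP j ((D : ℤ), r) w)) (3 ^ od j w) v₀ Y -
        cc f g κ (3 ^ od j w * X / 2 ^ j) (rn stP j ((D : ℤ), r) w).1.toNat (rn stP j ((D : ℤ), r) w).2) := by
      have e2 : ∀ w, Av (Fp f g (rn stP j ((D : ℤ), r) w)) (3 ^ od j w) v₀ Y -
        cc f g κ (3 ^ od j w * X / 2 ^ j) (rn stP j ((D : ℤ), r) w).1.toNat (rn stP j ((D : ℤ), r) w).2 =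
        Av (Fp f g (rn stP j ((D : ℤ), r) w)) (3 ^ od j w) v₀ Y + (-1) *
        cc f g κ (3 ^ od j w * X / 2 ^ j) (rn stP j ((D : ℤ), r) w).1.toNat (rn stP j ((D : ℤ), r) w).2 := by
        intro w; ring
      rw [ex_congr e2, ex_add, ex_mul]; ring
    rw [e1, abs_le]
    constructor
    · have h1 : ex j (fun w => -(5 / U) + (-3) * id1 (¬ Lg (lb stK j (fun _ : Fin 1 => ((D : ℤ), r)) w))) ≤ ex j (fun w =>
        Av (Fp f g (rn stP j ((D : ℤ), r) w)) (3 ^ od j w) v₀ Y - cc f g κ (3 ^ od j w * X / 2 ^ j)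
          (rn stP j ((D : ℤ), r) w).1.toNat (rn stP j ((D : ℤ), r) w).2) := ex_mono fun w => by
        have := (abs_le.1 (hpt w)).1
        linarith
      rw [ex_add, ex_const, ex_mul, ← Pool.Agent.J4H39.pb_id1] at h1
      linarith
    · have h1 : ex j (fun w =>
        Av (Fp f g (rn stP j ((D : ℤ), r) w)) (3 ^ od j w) v₀ Y - cc f g κ (3 ^ od j w * X / 2 ^ j)
          (rn stP j ((D : ℤ), r) w).1.toNat (rn stP j ((D : ℤ), r) w).2) ≤
        ex j (fun w => 5 / U + 3 * id1 (¬ Lg (lb stK j (fun _ : Fin 1 => ((D : ℤ), r)) w))) :=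
        ex_mono fun w => (abs_le.1 (hpt w)).2
      rw [ex_add, ex_const, ex_mul, ← Pool.Agent.J4H39.pb_id1] at h1
      linarith
  have hfin := (abs_sub_le (cc f g κ X D r) (Av (fun n => f n * g (3 ^ D * n + r)) (2 ^ j) v₀ Y)
    (ex j (fun y => cc f g κ (3 ^ od j y * X / 2 ^ j) (rn stP j ((D : ℤ), r) y).1.toNat
      (rn stP j ((D : ℤ), r) y).2)))
  have hfin2 := (abs_sub_le (Av (fun n => f n * g (3 ^ D * n + r)) (2 ^ j) v₀ Y)
    (ex j (fun w => Av (Fp f g (rn stP j ((D : ℤ), r) w)) (3 ^ od j w) v₀ Y))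
    (ex j (fun y => cc f g κ (3 ^ od j y * X / 2 ^ j) (rn stP j ((D : ℤ), r) y).1.toNat
      (rn stP j ((D : ℤ), r) y).2)))
  have e9 : 5 / U = 5 * (2 ^ j / X) := by rw [hUd]; field_simp
  rw [e9] at s1 s3
  linarith

/-- the exponent does not move far in one stage -/
theorem drift {j : ℕ} (hj : 1 ≤ j) (s : ℤ × ℤ) (δ : ℕ) :
    pb j (fun y => ¬ (s.1 - δ ≤ (rn stP j s y).1)) ≤ 4 * Real.exp (-((δ : ℝ) ^ 2 / (2 * j))) := by
  have hP : Per j (fun y => ¬ (s.1 - δ ≤ (rn stP j s y).1)) := by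
    intro x u
    simp only
    rw [Pool.Agent.J4H39.per_rn stP s (le_refl j) x u]
  have hQ : Per j (fun y => (δ : ℝ) ≤ |2 * (od j y : ℝ) - j|) := by
    intro x u
    simp only
    rw [Pool.Agent.J4H39.per_od (le_refl j) x u]
  have h1 := Pool.Agent.J4H39.pb_repr (s := s) hP hQ (by
    intro y y' hrel hPy hq
    by_contra hq'
    apply hPy
    push Not at hq hq'
    rw [(Pool.Agent.J4H39.rel_rn hrel j).2]
    rw [abs_lt] at hq hq'
    have h2 : -(2 * (δ : ℝ)) < 2 * (od j y' : ℝ) - 2 * od j y := by linarith [hq.1, hq.2, hq'.1, hq'.2]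
    have h3 : -(δ : ℝ) < (od j y' : ℝ) - od j y := by linarith
    have h4 : -(δ : ℤ) < (od j y' : ℤ) - od j y := by exact_mod_cast h3
    omega)
  have h2 := Pool.Agent.J4H39.pb_od hj (δ := (δ : ℝ)) (by positivity)
  linarith

end Pool.Agent.J4H94.PC
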