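import Mathlib
import Pool.Agent.J4H94.PC.Ft2

set_option autoImplicit false

/-! Project PC, job A3: `S_FT`, the transfer through 48 stages. -/

namespace Pool.Agent.J4H94.PC

open Finset Filter Real
open Pool.Agent.J4H39 (T od ex pb ns rn stP stK lb GK GS Cm DV th0 Per id1 id1_pos id1_neg id1_nonneg id1_le_one par
  ex_mono ex_congr ex_add ex_mul ex_const)
open Pool.Agent.J4H26.PC
open Pool.Agent.J4H95.PC
open Pool.Agent.H499R2.CO (rho rho_nonneg)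

theorem size {j o : ℕ} (h : 7 * j ≤ 15 * o) {e X : ℝ} (hX : (2 : ℝ) ^ ((e + 3 / 10) * j) ≤ X) :
    (2 : ℝ) ^ (e * j) ≤ 3 ^ o * X / 2 ^ j := by
  have h1 : (2 : ℝ) ^ ((7 / 10 : ℝ) * j) ≤ 3 ^ o := by
    have a1 : (2 : ℝ) ^ (3 / 2 : ℝ) ≤ 3 := by
      have : ((2 : ℝ) ^ (3 / 2 : ℝ)) ^ 2 ≤ 3 ^ 2 := by
        rw [← Real.rpow_natCast, ← Real.rpow_mul (by norm_num)]
        norm_num
      exact (pow_le_pow_iff_left₀ (by positivity) (by norm_num) (by norm_num)).1 this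
    calc (2 : ℝ) ^ ((7 / 10 : ℝ) * j) ≤ 2 ^ ((3 / 2 : ℝ) * o) := by
          apply Real.rpow_le_rpow_of_exponent_le (by norm_num)
          have : (7 * j : ℝ) ≤ 15 * o := by exact_mod_cast h
          linarith
      _ = ((2 : ℝ) ^ (3 / 2 : ℝ)) ^ o := by rw [Real.rpow_mul (by norm_num), Real.rpow_natCast]
      _ ≤ 3 ^ o := pow_le_pow_left₀ (by positivity) a1 o
  rw [le_div_iff₀ (by positivity)]
  calc (2 : ℝ) ^ (e * j) * 2 ^ j = 2 ^ ((7 / 10 : ℝ) * j) * 2 ^ ((e + 3 / 10) * j) := by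
        rw [← Real.rpow_natCast 2 j, ← Real.rpow_add (by norm_num), ← Real.rpow_add (by norm_num)]
        congr 1; ring
    _ ≤ 3 ^ o * X := mul_le_mul h1 hX (by positivity) (by positivity)

theorem ex_diff {j : ℕ} {F G : ℤ → ℝ} {A B : ℝ} {P : ℤ → Prop} (h : ∀ y, |F y - G y| ≤ A + B * id1 (P y)) :
    |ex j F - ex j G| ≤ A + B * pb j P := by
  have e1 : ex j F - ex j G = ex j (fun y => F y + (-1) * G y) := by
    rw [ex_add, ex_mul]; ring
  have e2 : ex j (fun y => A + B * id1 (P y)) = A + B * pb j P := by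
    rw [ex_add, ex_const, ex_mul, ← Pool.Agent.J4H39.pb_id1]
  have e3 : ex j (fun y => (-1) * (A + B * id1 (P y))) = -(A + B * pb j P) := by
    rw [ex_mul, e2]; ring
  rw [e1, abs_le]
  constructor
  · rw [← e3]
    apply ex_mono
    intro y
    have := (abs_le.1 (h y)).1
    linarith
  · rw [← e2]
    apply ex_mono
    intro y
    have := (abs_le.1 (h y)).2
    linarith

theorem ex_abs_bd {j : ℕ} {F : ℤ → ℝ} {B : ℝ} (h : ∀ y, |F y| ≤ B) : |ex j F| ≤ B := by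
  rw [abs_le]
  constructor
  · have h1 : ex j (fun _ => -B) ≤ ex j F := ex_mono fun y => (abs_le.1 (h y)).1
    rwa [ex_const] at h1
  · have h1 : ex j F ≤ ex j (fun _ => B) := ex_mono fun y => (abs_le.1 (h y)).2
    rwa [ex_const] at h1

theorem eta_rate : ∃ C : ℝ, 0 < C ∧ ∀ᶠ w : ℕ in atTop, ∀ j, w ^ 80 ≤ j → j ≤ 2 * w ^ 80 → ∀ u : ℕ, u ≤ 3 * w ^ 76 →
    ∀ r : ℤ, |r| ≤ 4 ^ u → ns (j / 8) (0, r) ≤ C / w := by
  obtain ⟨C₀, hC₀, h⟩ := Pool.Agent.J4H39.ns_rate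
  refine ⟨72 * C₀, by positivity, ?_⟩
  filter_upwards [eventually_ge_atTop 2] with w hw j hj1 hj2 u hu r hr
  have hw1 : (1 : ℝ) ≤ w := by exact_mod_cast (by omega : 1 ≤ w)
  have hw0 : (0 : ℝ) < w := by linarith
  have h16 : 16 ≤ w ^ 80 := by
    calc 16 = 2 ^ 4 := by norm_num
      _ ≤ w ^ 4 := Nat.pow_le_pow_left hw 4
      _ ≤ w ^ 80 := Nat.pow_le_pow_right (by omega) (by norm_num)
  have hk1 : 1 ≤ j / 8 := by omega
  have hrho : rho (j / 8) ≤ 36 / (w : ℝ) ^ 39 := by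
    have a1 := Pool.Agent.H499R2.CO.rho_le (m := j / 8) (k := w ^ 80) (c := 4) hk1 (by omega) (by norm_num) (by
      have : w ^ 80 ≤ 16 * (j / 8) := by omega
      have : ((w ^ 80 : ℕ) : ℝ) ≤ 16 * ((j / 8 : ℕ) : ℝ) := by exact_mod_cast this
      linarith)
    have a2 := Pool.Agent.J4H95.PC.rho_le (w := w) (by omega)
    calc rho (j / 8) ≤ 4 * rho (w ^ 80) := a1
      _ ≤ 4 * (9 / (w : ℝ) ^ 39) := by linarith
      _ = 36 / (w : ℝ) ^ 39 := by ring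
  have hr' : |(r : ℝ)| ≤ 4 ^ u := by exact_mod_cast hr
  have a3 := h (j / 8) hk1 0 u r hr'
  have hsq : √ (1 + ((0 : ℤ) : ℝ) ^ 2 + u) ≤ 2 * (w : ℝ) ^ 38 := by
    rw [Real.sqrt_le_left (by positivity)]
    have b1 : (u : ℝ) ≤ 3 * (w : ℝ) ^ 76 := by exact_mod_cast hu
    have b2 : (1 : ℝ) ≤ (w : ℝ) ^ 76 := one_le_pow₀ hw1
    calc 1 + ((0 : ℤ) : ℝ) ^ 2 + u ≤ 4 * (w : ℝ) ^ 76 := by push_cast; linarith
      _ = (2 * (w : ℝ) ^ 38) ^ 2 := by ring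
  calc ns (j / 8) (0, r) ≤ C₀ * √ (1 + ((0 : ℤ) : ℝ) ^ 2 + u) * rho (j / 8) := a3
    _ ≤ C₀ * (2 * (w : ℝ) ^ 38) * (36 / (w : ℝ) ^ 39) :=
        mul_le_mul (mul_le_mul_of_nonneg_left hsq hC₀.le) hrho (rho_nonneg _) (by positivity)
    _ = 72 * C₀ / w := by field_simp; ring

theorem base_rate (c : ℕ) : ∃ C : ℝ, 0 < C ∧ ∀ᶠ w : ℕ in atTop, ∀ j, w ^ 80 ≤ j → j ≤ 2 * w ^ 80 →
    ∀ f g : ℤ → ℝ, Iv f → Iv g → ∀ κ X : ℝ, (2 : ℝ) ^ (4 * j) ≤ X → ∀ (D : ℕ) (r : ℤ), |r| ≤ 4 ^ (c * w ^ 56) →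
    |cc f g κ X D r - cc f g κ X D 0| ≤ C / w := by
  obtain ⟨C₀, hC₀, hη⟩ := eta_rate
  refine ⟨12 * C₀, by positivity, ?_⟩
  filter_upwards [hη, eventually_ge_atTop 2, eventually_ge_atTop c] with w e1 hw hwc j hj1 hj2 f g hf hg κ X hX D r hr
  have hu : c * w ^ 56 ≤ 3 * w ^ 76 := by
    calc c * w ^ 56 ≤ w * w ^ 56 := Nat.mul_le_mul_right _ hwc
      _ = w ^ 57 := by ring
      _ ≤ w ^ 76 := Nat.pow_le_pow_right (by omega) (by norm_num)
      _ ≤ 3 * w ^ 76 := by omega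
  have q1 := e1 j hj1 hj2 _ hu r hr
  have q0 := e1 j hj1 hj2 0 (by positivity) 0 (by simp)
  have hk : (2 : ℝ) ^ (j / 8) ≤ X := le_trans (pow_le_pow_right₀ (by norm_num) (by omega)) hX
  have hX1 : 1 ≤ X := le_trans (one_le_pow₀ (by norm_num)) hX
  have hX0 : 0 < X := by linarith
  unfold cc
  rw [max_eq_left hX1, ← sub_div, ← sum_sub_distrib, abs_div, abs_of_pos hX0, div_le_iff₀ hX0]
  refine (abs_sum_le_sum_abs _ _).trans ?_
  have hpt : ∀ n ∈ Finset.Ico ⌈κ * X⌉ ⌈κ * X + X⌉, |f n * g (3 ^ D * n + r) - f n * g (3 ^ D * n + 0)| ≤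
      2 * id1 (rn stP (j / 8) (0, 0) n ≠ (0, 0)) + 2 * id1 (rn stP (j / 8) (0, r) (3 ^ D * n) ≠ (0, 0)) := by
    intro n _
    have := pair_diff hf hg (Pool.Agent.J4H39.rel_zero 0 n) (Pool.Agent.J4H39.rel_zero r (3 ^ D * n)) (j / 8)
    simp only [add_zero] at this ⊢
    exact this
  refine (sum_le_sum hpt).trans ?_
  rw [sum_add_distrib, ← mul_sum, ← mul_sum]
  have p1 := bad_sum (κ := κ) (Pool.Agent.J4H39.per_ns (j / 8) (0, 0)) hX1 hk
  have p2 := bad_sum (κ := κ) (per_mul (Pool.Agent.J4H39.per_ns (j / 8) (0, r)) D) hX1 hk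
  rw [pb_mul (Pool.Agent.J4H39.per_ns (j / 8) (0, r)) D] at p2
  have p3 : 3 * X * pb (j / 8) (fun y => rn stP (j / 8) (0, 0) y ≠ (0, 0)) ≤ 3 * X * (C₀ / w) :=
    mul_le_mul_of_nonneg_left q0 (by positivity)
  have p4 : 3 * X * pb (j / 8) (fun y => rn stP (j / 8) (0, r) y ≠ (0, 0)) ≤ 3 * X * (C₀ / w) :=
    mul_le_mul_of_nonneg_left q1 (by positivity)
  have e9 : 12 * C₀ / w * X = 2 * (3 * X * (C₀ / w)) + 2 * (3 * X * (C₀ / w)) := by ring
  rw [e9]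
  linarith

theorem stage_rate (h1 : S_DVR) (h2 : S_LABR) (c : ℕ) : ∃ C : ℝ, 0 < C ∧ ∀ᶠ w : ℕ in atTop, ∀ j, w ^ 80 ≤ j →
    j ≤ 2 * w ^ 80 → ∀ f g : ℤ → ℝ, Iv f → Iv g → ∀ κ X : ℝ, (2 : ℝ) ^ (4 * j) ≤ X → ∀ (D : ℕ) (r : ℤ),
    GS (c * w ^ 48) (c * w ^ 56) ((D : ℤ), r) → w ^ 41 ≤ D →
    |cc f g κ X D r - ex j (fun y => cc f g κ (3 ^ od j y * X / 2 ^ j) (rn stP j ((D : ℤ), r) y).1.toNat
      (rn stP j ((D : ℤ), r) y).2)| ≤ C / w ∧
    pb j (fun y => ¬ (7 * j ≤ 15 * od j y ∧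
      GS ((2 * c + 4) * w ^ 48) ((2 * c + 4) * w ^ 56) (rn stP j ((D : ℤ), r) y) ∧
      (D : ℤ) - ((w ^ 41 : ℕ) : ℤ) ≤ (rn stP j ((D : ℤ), r) y).1)) ≤ 17 / w := by
  obtain ⟨C₀, hC₀, hη⟩ := eta_rate
  refine ⟨8 * C₀ + 97, by positivity, ?_⟩
  have t4 : Tendsto (fun w : ℕ => w ^ 4) atTop atTop := tendsto_pow_atTop (by norm_num)
  filter_upwards [hη, t4.eventually (h1 1 c 1), t4.eventually (h2 1 c 1), eventually_ge_atTop 40,
    eventually_ge_atTop (2 * c + 4)] with w e1 e2 e3 hw hwc j hj1 hj2 f g hf hg κ X hX D r hGS hD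
  have z20 : (w ^ 4) ^ 20 = w ^ 80 := by ring
  have z12 : (w ^ 4) ^ 12 = w ^ 48 := by ring
  have z14 : (w ^ 4) ^ 14 = w ^ 56 := by ring
  have z19 : (w ^ 4) ^ 19 = w ^ 76 := by ring
  have z11 : (w ^ 4) ^ 11 = w ^ 44 := by ring
  rw [z20, z12, z14, z19] at e2
  rw [z20, z12, z14, z11] at e3
  have hw1 : 1 ≤ w := by omega
  have hwR : (1 : ℝ) ≤ w := by exact_mod_cast hw1
  have hw0 : (0 : ℝ) < w := by linarith
  have hz40 : 40 ≤ w ^ 4 := le_trans hw (Nat.le_self_pow (by norm_num) w)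
  have hzc : 2 * c + 4 ≤ w ^ 4 := le_trans hwc (Nat.le_self_pow (by norm_num) w)
  obtain ⟨n1, n2, n3, _⟩ := Pool.Agent.J4H39.nat_facts (j := j) hz40 hzc (by rw [z20]; exact hj1)
  rw [z12, z19] at n1
  rw [z14, z19] at n2
  rw [z19, z11] at n3
  have hG : GK (c * w ^ 48) (c * w ^ 56) (fun _ : Fin 1 => ((D : ℤ), r)) := fun _ => hGS
  have hC : Cm (fun _ : Fin 1 => ((D : ℤ), r)) := Pool.Agent.J4H39.Cm_nonneg fun _ => by simp
  have hDV := e2 j hj1 hj2 _ hG hC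
  have hLB := e3 j hj1 hj2 _ hG
  have hinv : 1 / (((w ^ 4 : ℕ)) : ℝ) ^ 1 ≤ 1 / w := by
    rw [pow_one]
    apply one_div_le_one_div_of_le hw0
    exact_mod_cast Nat.le_self_pow (by norm_num) w
  have hjw : w ≤ j := le_trans (Nat.le_self_pow (by norm_num) w) hj1
  have hj1' : 1 ≤ j := by omega
  have hdr := drift (j := j) hj1' ((D : ℤ), r) (w ^ 41)
  have hexp : 4 * Real.exp (-((((w ^ 41 : ℕ)) : ℝ) ^ 2 / (2 * j))) ≤ 16 / w := by
    have hjR : (j : ℝ) ≤ 2 * (w : ℝ) ^ 80 := by exact_mod_cast hj2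
    have hj0 : (0 : ℝ) < j := by exact_mod_cast hj1'
    have a1 : (w : ℝ) / 4 ≤ ((w ^ 41 : ℕ) : ℝ) ^ 2 / (2 * j) := by
      rw [div_le_div_iff₀ (by norm_num) (by positivity)]
      push_cast
      calc (w : ℝ) * (2 * j) ≤ w * (2 * (2 * (w : ℝ) ^ 80)) := by gcongr
        _ = 4 * (w : ℝ) ^ 81 := by ring
        _ ≤ 4 * (w : ℝ) ^ 82 := by
          have : (w : ℝ) ^ 81 ≤ (w : ℝ) ^ 82 := pow_le_pow_right₀ hwR (by norm_num)
          linarith
        _ = ((w : ℝ) ^ 41) ^ 2 * 4 := by ring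
    have a2 : Real.exp (-(((w ^ 41 : ℕ) : ℝ) ^ 2 / (2 * j))) ≤ Real.exp (-(w / 4)) := Real.exp_le_exp.2 (by linarith)
    have a3 : Real.exp (-((w : ℝ) / 4)) ≤ 4 / w := by
      rw [Real.exp_neg, ← one_div, div_le_div_iff₀ (Real.exp_pos _) hw0]
      have := Real.add_one_le_exp ((w : ℝ) / 4)
      linarith
    have : 4 * (4 / (w : ℝ)) = 16 / w := by ring
    linarith
  obtain ⟨Lg, hLg⟩ : ∃ Lg : ℕ × (Fin 1 → ℤ × ℤ) → Prop, Lg = fun μ => (j - w ^ 44) / 2 ≤ μ.1 ∧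
    GS ((2 * c + 4) * w ^ 48) ((2 * c + 4) * w ^ 56) (μ.2 0) ∧ (D : ℤ) - ((w ^ 41 : ℕ) : ℤ) ≤ (μ.2 0).1 := ⟨_, rfl⟩
  have h3 : ∀ y, (lb stK j (fun _ : Fin 1 => ((D : ℤ), r)) y).2 0 = rn stP j ((D : ℤ), r) y := by
    intro y
    unfold lb
    simp only
    rw [Pool.Agent.J4H39.rn_stK_apply]
  have hpb : pb j (fun y => ¬ Lg (lb stK j (fun _ : Fin 1 => ((D : ℤ), r)) y)) ≤ 17 / w := by
    have b1 : pb j (fun y => ¬ Lg (lb stK j (fun _ : Fin 1 => ((D : ℤ), r)) y)) ≤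
        pb j (fun y => ¬ ((j - w ^ 44) / 2 ≤ od j y ∧
        GK ((2 * c + 4) * w ^ 48) ((2 * c + 4) * w ^ 56) (rn stK j (fun _ : Fin 1 => ((D : ℤ), r)) y)) ∨
        ¬ ((D : ℤ) - ((w ^ 41 : ℕ) : ℤ) ≤ (rn stP j ((D : ℤ), r) y).1)) := by
      apply Pool.Agent.J4H39.pb_mono
      intro y hy
      by_contra hcon
      rw [not_or, not_not, not_not] at hcon
      obtain ⟨⟨q1, q2⟩, q3⟩ := hcon
      apply hy
      rw [hLg]
      simp only
      rw [h3]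
      refine ⟨q1, ?_, q3⟩
      have := q2 0
      rwa [Pool.Agent.J4H39.rn_stK_apply] at this
    have b2 := Pool.Agent.J4H39.pb_or j (fun y => ¬ ((j - w ^ 44) / 2 ≤ od j y ∧
        GK ((2 * c + 4) * w ^ 48) ((2 * c + 4) * w ^ 56) (rn stK j (fun _ : Fin 1 => ((D : ℤ), r)) y)))
        (fun y => ¬ ((D : ℤ) - ((w ^ 41 : ℕ) : ℤ) ≤ (rn stP j ((D : ℤ), r) y).1))
    have b3 : (17 : ℝ) / w = 1 / w + 16 / w := by ring
    rw [b3]
    exact (b1.trans b2).trans (add_le_add (hLB.trans hinv) (hdr.trans hexp))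
  refine ⟨?_, ?_⟩
  · have hX' : (2 : ℝ) ^ (j + 1) ≤ X := le_trans (pow_le_pow_right₀ (by norm_num) (by omega)) hX
    have hX0 : 0 < X := lt_of_lt_of_le (by positivity) hX
    have key := stage_cc hf hg (D := D) (r := r) (j := j) (k := j / 8) (m := w ^ 76) (a := (2 * c + 4) * w ^ 48)
      (b := (2 * c + 4) * w ^ 56) (o₀ := (j - w ^ 44) / 2) (η := C₀ / w) n3 (by
        intro r' hr'
        refine e1 j hj1 hj2 _ ?_ r' hr'
        have : 1 ≤ w ^ 76 := Nat.one_le_pow _ _ hw1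
        omega) Lg (by
        intro μ hμ
        rw [hLg] at hμ
        obtain ⟨q1, q2, q3⟩ := hμ
        refine ⟨q1, q2, ?_⟩
        have : ((w ^ 41 : ℕ) : ℤ) ≤ (D : ℤ) := by exact_mod_cast hD
        linarith) κ hX'
    have hXj : 2 ^ j / X ≤ 1 / (w : ℝ) := by
      rw [div_le_div_iff₀ hX0 hw0, one_mul]
      have a1 : (w : ℝ) ≤ 2 ^ j := by
        have : w ≤ 2 ^ j := le_trans hjw (Nat.lt_two_pow_self).le
        exact_mod_cast this
      calc (2 : ℝ) ^ j * w ≤ 2 ^ j * 2 ^ j := mul_le_mul_of_nonneg_left a1 (by positivity)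
        _ = 2 ^ (j + j) := by rw [pow_add]
        _ ≤ 2 ^ (4 * j) := pow_le_pow_right₀ (by norm_num) (by omega)
        _ ≤ X := hX
    have hDV' := hDV.trans hinv
    refine key.trans ?_
    have e9 : (8 * C₀ + 97) / w = 10 * (1 / w) + 2 * (1 / w) + 8 * (C₀ / w) + 5 * (17 / (w : ℝ)) := by ring
    rw [e9]
    linarith
  · refine le_trans (Pool.Agent.J4H39.pb_mono ?_) hpb
    intro y hy hy'
    apply hy
    rw [hLg] at hy'
    obtain ⟨q1, q2, q3⟩ := hy'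
    rw [h3] at q2 q3
    refine ⟨?_, q2, q3⟩
    have q4 : (j - w ^ 44) / 2 ≤ od j y := q1
    have q5 : 40 * w ^ 44 ≤ w ^ 80 := by
      calc 40 * w ^ 44 ≤ w * w ^ 44 := Nat.mul_le_mul_right _ hw
        _ = w ^ 45 := by ring
        _ ≤ w ^ 80 := Nat.pow_le_pow_right hw1 (by norm_num)
    have q6 : 1 ≤ w ^ 44 := Nat.one_le_pow _ _ hw1
    omega

theorem main_ind (h1 : S_DVR) (h2 : S_LABR) (n : ℕ) : ∀ c : ℕ, ∃ C : ℝ, 0 < C ∧ ∀ᶠ w : ℕ in atTop, ∀ j, w ^ 80 ≤ j →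
    j ≤ 2 * w ^ 80 → ∀ f g : ℤ → ℝ, Iv f → Iv g → ∀ κ X : ℝ, (2 : ℝ) ^ ((4 + 3 / 10 * (n : ℝ)) * j) ≤ X →
    ∀ (D : ℕ) (r : ℤ), GS (c * w ^ 48) (c * w ^ 56) ((D : ℤ), r) → n * w ^ 41 ≤ D →
    |cc f g κ X D r - ex (n * j) (fun y => cc f g κ (3 ^ od (n * j) y * X / 2 ^ (n * j))
      ((rn stP (n * j) ((D : ℤ), r) y).1.toNat) 0)| ≤ C / w := by
  induction n with
  | zero =>
    intro c
    obtain ⟨C, hC, h⟩ := base_rate c
    refine ⟨C, hC, ?_⟩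
    filter_upwards [h] with w h j hj1 hj2 f g hf hg κ X hX D r hGS _
    have hX' : (2 : ℝ) ^ (4 * j) ≤ X := by
      have e : (4 + 3 / 10 * ((0 : ℕ) : ℝ)) * (j : ℝ) = ((4 * j : ℕ) : ℝ) := by push_cast; ring
      rw [e, Real.rpow_natCast] at hX
      exact hX
    have := h j hj1 hj2 f g hf hg κ X hX' D r hGS.2
    have e1 : ex (0 * j) (fun y => cc f g κ (3 ^ od (0 * j) y * X / 2 ^ (0 * j))
        ((rn stP (0 * j) ((D : ℤ), r) y).1.toNat) 0) = cc f g κ X D 0 := by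
      have e2 : ∀ y, cc f g κ (3 ^ od (0 * j) y * X / 2 ^ (0 * j)) ((rn stP (0 * j) ((D : ℤ), r) y).1.toNat) 0 =
          cc f g κ X D 0 := by
        intro y
        rw [zero_mul]
        simp [od, rn]
      rw [ex_congr e2, ex_const]
    rw [e1]
    exact this
  | succ n ih =>
    intro c
    obtain ⟨C₁, hC₁, g1⟩ := stage_rate h1 h2 c
    obtain ⟨C₂, hC₂, g2⟩ := ih (2 * c + 4)
    refine ⟨C₁ + C₂ + 68, by positivity, ?_⟩
    filter_upwards [g1, g2, eventually_ge_atTop 1] with w g1 g2 hw j hj1 hj2 f g hf hg κ X hX D r hGS hD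
    have hw0 : (0 : ℝ) < w := by exact_mod_cast hw
    have hX4 : (2 : ℝ) ^ (4 * j) ≤ X := by
      refine le_trans ?_ hX
      rw [← Real.rpow_natCast]
      apply Real.rpow_le_rpow_of_exponent_le (by norm_num)
      push_cast
      have : (0 : ℝ) ≤ 3 / 10 * ((n : ℝ) + 1) * j := by positivity
      linarith
    have hX0 : 0 ≤ X := le_trans (by positivity) hX4
    have hDn : n * w ^ 41 + w ^ 41 ≤ D := by
      calc n * w ^ 41 + w ^ 41 = (n + 1) * w ^ 41 := by ring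
        _ ≤ D := hD
    have hD1 : w ^ 41 ≤ D := by omega
    obtain ⟨s1, s2⟩ := g1 j hj1 hj2 f g hf hg κ X hX4 D r hGS hD1
    have e1 : ex ((n + 1) * j) (fun y => cc f g κ (3 ^ od ((n + 1) * j) y * X / 2 ^ ((n + 1) * j))
        ((rn stP ((n + 1) * j) ((D : ℤ), r) y).1.toNat) 0) =
        ex j (fun y => ex (n * j) (fun z => cc f g κ (3 ^ (od j y + od (n * j) z) * X / 2 ^ (j + n * j))
          ((rn stP (n * j) (rn stP j ((D : ℤ), r) y) z).1.toNat) 0)) := by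
      have hj' : (n + 1) * j = j + n * j := by ring
      rw [hj', ← Pool.Agent.J4H39.ex_pair j (n * j) (fun y z => cc f g κ (3 ^ (od j y + od (n * j) z) * X /
          2 ^ (j + n * j)) ((rn stP (n * j) (rn stP j ((D : ℤ), r) y) z).1.toNat) 0)]
      · apply ex_congr
        intro y
        rw [Pool.Agent.J4H39.od_comp, Pool.Agent.J4H39.rn_comp]
      · intro z x u
        simp only
        rw [Pool.Agent.J4H39.per_od (le_refl j) x u, Pool.Agent.J4H39.per_rn stP _ (le_refl j) x u]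
      · intro y x u
        simp only
        rw [Pool.Agent.J4H39.per_od (le_refl _) x u, Pool.Agent.J4H39.per_rn stP _ (le_refl _) x u]
    rw [e1]
    have hpt : ∀ y, |cc f g κ (3 ^ od j y * X / 2 ^ j) (rn stP j ((D : ℤ), r) y).1.toNat (rn stP j ((D : ℤ), r) y).2 -
        ex (n * j) (fun z => cc f g κ (3 ^ (od j y + od (n * j) z) * X / 2 ^ (j + n * j))
          ((rn stP (n * j) (rn stP j ((D : ℤ), r) y) z).1.toNat) 0)| ≤ C₂ / w + 4 * id1 (¬ (7 * j ≤ 15 * od j y ∧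
      GS ((2 * c + 4) * w ^ 48) ((2 * c + 4) * w ^ 56) (rn stP j ((D : ℤ), r) y) ∧
      (D : ℤ) - ((w ^ 41 : ℕ) : ℤ) ≤ (rn stP j ((D : ℤ), r) y).1)) := by
      intro y
      by_cases hgood : (7 * j ≤ 15 * od j y ∧
        GS ((2 * c + 4) * w ^ 48) ((2 * c + 4) * w ^ 56) (rn stP j ((D : ℤ), r) y) ∧
        (D : ℤ) - ((w ^ 41 : ℕ) : ℤ) ≤ (rn stP j ((D : ℤ), r) y).1)
      · rw [id1_neg (fun h => h hgood), mul_zero, add_zero]
        obtain ⟨q1, q2, q3⟩ := hgood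
        obtain ⟨s, hs⟩ : ∃ s, s = rn stP j ((D : ℤ), r) y := ⟨_, rfl⟩
        rw [← hs] at q2 q3 ⊢
        have hDz : ((n * w ^ 41 : ℕ) : ℤ) + ((w ^ 41 : ℕ) : ℤ) ≤ (D : ℤ) := by exact_mod_cast hDn
        have q4 : ((n * w ^ 41 : ℕ) : ℤ) ≤ s.1 := by linarith
        have q5 : 0 ≤ s.1 := le_trans (by positivity) q4
        obtain ⟨d, hd⟩ := Int.eq_ofNat_of_zero_le q5
        obtain ⟨r', hr'⟩ : ∃ r', r' = s.2 := ⟨_, rfl⟩
        have hs' : s = ((d : ℤ), r') := by rw [hr', ← hd]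
        rw [hs'] at q2 q4 ⊢
        simp only [Int.toNat_natCast]
        have hX' : (2 : ℝ) ^ ((4 + 3 / 10 * (n : ℝ)) * j) ≤ 3 ^ od j y * X / 2 ^ j := by
          apply size q1
          have e : (4 + 3 / 10 * ((n + 1 : ℕ) : ℝ)) * (j : ℝ) = (4 + 3 / 10 * (n : ℝ) + 3 / 10) * j := by
            push_cast; ring
          rw [← e]
          exact hX
        simp only at q4
        have hd' : n * w ^ 41 ≤ d := by exact_mod_cast q4
        have := g2 j hj1 hj2 f g hf hg κ _ hX' d r' q2 hd'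
        have e2 : ∀ z, cc f g κ (3 ^ (od j y + od (n * j) z) * X / 2 ^ (j + n * j))
          ((rn stP (n * j) ((d : ℤ), r') z).1.toNat) 0 = cc f g κ (3 ^ od (n * j) z * (3 ^ od j y * X / 2 ^ j) /
          2 ^ (n * j)) ((rn stP (n * j) ((d : ℤ), r') z).1.toNat) 0 := by
          intro z
          congr 1
          rw [pow_add, pow_add]
          field_simp
        rw [ex_congr e2]
        exact this
      · rw [id1_pos hgood]
        have a1 : |cc f g κ (3 ^ od j y * X / 2 ^ j) (rn stP j ((D : ℤ), r) y).1.toNat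
          (rn stP j ((D : ℤ), r) y).2| ≤ 2 := cc_bd hf hg κ (by positivity) _ _
        have a2 : |ex (n * j) (fun z => cc f g κ (3 ^ (od j y + od (n * j) z) * X / 2 ^ (j + n * j))
          ((rn stP (n * j) (rn stP j ((D : ℤ), r) y) z).1.toNat) 0)| ≤ 2 :=
          ex_abs_bd fun z => cc_bd hf hg κ (by positivity) _ _
        have a3 := abs_sub (cc f g κ (3 ^ od j y * X / 2 ^ j) (rn stP j ((D : ℤ), r) y).1.toNat
          (rn stP j ((D : ℤ), r) y).2) (ex (n * j) (fun z => cc f g κ (3 ^ (od j y + od (n * j) z) * X /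
          2 ^ (j + n * j)) ((rn stP (n * j) (rn stP j ((D : ℤ), r) y) z).1.toNat) 0))
        have a4 : 0 ≤ C₂ / w := by positivity
        linarith
    have hd := ex_diff (j := j) hpt
    have tri := abs_sub_le (cc f g κ X D r) (ex j (fun y => cc f g κ (3 ^ od j y * X / 2 ^ j)
      (rn stP j ((D : ℤ), r) y).1.toNat (rn stP j ((D : ℤ), r) y).2))
      (ex j (fun y => ex (n * j) (fun z => cc f g κ (3 ^ (od j y + od (n * j) z) * X / 2 ^ (j + n * j))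
          ((rn stP (n * j) (rn stP j ((D : ℤ), r) y) z).1.toNat) 0)))
    have e9 : (C₁ + C₂ + 68) / (w : ℝ) = C₁ / w + (C₂ / w + 4 * (17 / w)) := by ring
    rw [e9]
    linarith

/-- (A3) -/
theorem t_FT : S_DVR → S_LABR → S_FT := by
  intro h1 h2
  obtain ⟨C, hC, h⟩ := main_ind h1 h2 48 1
  refine ⟨C, hC, ?_⟩
  filter_upwards [h, eventually_ge_atTop 48] with w h hw j hj1 hj2 f g hf hg κ _ X hX D hD1 hD2
  refine h j hj1 hj2 f g hf hg κ X ?_ D 0 ?_ ?_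
  · refine le_trans ?_ hX
    rw [← Real.rpow_natCast]
    apply Real.rpow_le_rpow_of_exponent_le (by norm_num)
    push_cast
    have : (0 : ℝ) ≤ j := by positivity
    linarith
  · constructor
    · simp only
      rw [abs_of_nonneg (by positivity)]
      have : D ≤ 1 * w ^ 48 := by omega
      exact_mod_cast this
    · simp
  · refine le_trans ?_ hD1
    calc 48 * w ^ 41 ≤ w * w ^ 41 := Nat.mul_le_mul_right _ hw
      _ = w ^ 42 := by ring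

end Pool.Agent.J4H94.PC
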