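import Mathlib
import Pool.Agent.J4H26.PC.Q1
import Pool.Agent.J4H94.PC.Ft

set_option autoImplicit false

/-! Project PC, job B1: one aligned stage, labels of any sign. -/

namespace Pool.Agent.J4H94.PC

open Finset Filter Real
open Pool.Agent.J4H39 (T od ex pb ns rn stP stK lb GK GS Cm DV th0 Per id1 id1_pos id1_neg id1_nonneg id1_le_one par
  ex_mono ex_congr ex_add ex_mul ex_const)
open Pool.Agent.J4H26.PC
open Pool.Agent.J4H95.PC

/-- all the classes give the same average -/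
theorem core {f g : ℤ → ℝ} (hf : Iv f) (hg : Iv g) {m k a e e' o : ℕ} {η : ℝ}
    (hη : ∀ r : ℤ, |r| ≤ 4 ^ (m + 1 + a) → ns k (0, r) ≤ η) (he : e ≤ m) (hea : e ≤ a) (hea' : e' ≤ a)
    (hmk : m + k ≤ o) (ρ q₀ v₀ : ℤ) {Y : ℕ} (hY : 1 ≤ Y) (c₁ : ℤ) (h0 : 0 ≤ c₁) (h1 : c₁ < 3 ^ (m - e)) :
    |∑ i ∈ range (3 ^ (o - m) * Y), (1 + f (3 ^ e * (c₁ + 3 ^ (m - e) * (3 ^ (o - m) * v₀ + (i : ℕ))) + ρ) *
      g (3 ^ e' * (c₁ + 3 ^ (m - e) * (3 ^ (o - m) * v₀ + (i : ℕ))) + q₀)) / 2 -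
      ((3 ^ (o - m) * Y : ℕ) : ℝ) * ((1 + Av (fun t => f (3 ^ e * t + ρ) * g (3 ^ e' * t + q₀)) (3 ^ (o - e)) v₀ Y) / 2)| ≤
      4 * η * ((3 ^ (o - m) * Y : ℕ) : ℝ) := by
  have hη0 : 0 ≤ η := (Pool.Agent.J4H39.ns_nonneg k (0, 0)).trans (hη 0 (by simp))
  have hY0 : (0 : ℝ) < Y := by exact_mod_cast hY
  obtain ⟨Z, hZ⟩ : ∃ Z, Z = 3 ^ (o - m) * Y := ⟨_, rfl⟩
  rw [← hZ]
  have hkZ : 2 ^ k ≤ Z := by
    rw [hZ]
    calc 2 ^ k ≤ 3 ^ k := Nat.pow_le_pow_left (by norm_num) k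
      _ ≤ 3 ^ (o - m) := Nat.pow_le_pow_right (by norm_num) (by omega)
      _ ≤ 3 ^ (o - m) * Y := Nat.le_mul_of_pos_right _ hY
  have hkZr : (2 : ℝ) ^ k ≤ Z := by exact_mod_cast hkZ
  have hZ0 : (0 : ℝ) < Z := lt_of_lt_of_le (by positivity) hkZr
  obtain ⟨H, hH⟩ : ∃ H : ℤ → ℝ, H = fun t => (1 + f (3 ^ e * t + ρ) * g (3 ^ e' * t + q₀)) / 2 := ⟨_, rfl⟩
  obtain ⟨A, hA⟩ : ∃ A : ℤ → ℝ, A = fun c => ∑ i ∈ range Z, H (c + 3 ^ (m - e) * (3 ^ (o - m) * v₀ + (i : ℕ))) :=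
    ⟨_, rfl⟩
  have claim1 : ∀ c c' : ℤ, 0 ≤ c → c < 3 ^ (m - e) → 0 ≤ c' → c' < 3 ^ (m - e) → |A c - A c'| ≤ 4 * η * Z := by
    intro c c' a1 a2 a3 a4
    obtain ⟨h, hh⟩ : ∃ h, h = c - c' := ⟨_, rfl⟩
    have hhb : |h| ≤ 4 ^ m := by
      have b1 : (3 : ℤ) ^ (m - e) ≤ 4 ^ m :=
        (pow_le_pow_left₀ (by norm_num) (by norm_num) _).trans (pow_le_pow_right₀ (by norm_num) (by omega))
      rw [hh, abs_le]
      constructor <;> linarith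
    have hb : ∀ d : ℕ, d ≤ a → ns k (0, 3 ^ d * h) ≤ η := by
      intro d hda
      apply hη
      rw [abs_mul, abs_of_pos (by positivity : (0 : ℤ) < 3 ^ d)]
      have b2 : (3 : ℤ) ^ d ≤ 4 ^ a :=
        (pow_le_pow_left₀ (by norm_num) (by norm_num) d).trans (pow_le_pow_right₀ (by norm_num) hda)
      calc (3 : ℤ) ^ d * |h| ≤ 4 ^ a * 4 ^ m := mul_le_mul b2 hhb (abs_nonneg _) (by positivity)
        _ = 4 ^ (a + m) := by rw [pow_add]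
        _ ≤ 4 ^ (m + 1 + a) := pow_le_pow_right₀ (by norm_num) (by omega)
    rw [hA]
    simp only
    rw [← sum_sub_distrib]
    refine (abs_sum_le_sum_abs _ _).trans ?_
    have hpt : ∀ i ∈ range Z, |H (c + 3 ^ (m - e) * (3 ^ (o - m) * v₀ + (i : ℕ))) -
        H (c' + 3 ^ (m - e) * (3 ^ (o - m) * v₀ + (i : ℕ)))| ≤
        id1 (rn stP k (0, 3 ^ e * h) (3 ^ m * ((i : ℕ) : ℤ) +
          (3 ^ e * (c' + 3 ^ (m - e) * (3 ^ (o - m) * v₀)) + ρ)) ≠ (0, 0)) +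
        id1 (rn stP k (0, 3 ^ e' * h) (3 ^ (e' + (m - e)) * ((i : ℕ) : ℤ) +
          (3 ^ e' * (c' + 3 ^ (m - e) * (3 ^ (o - m) * v₀)) + q₀)) ≠ (0, 0)) := by
      intro i _
      obtain ⟨z, hz⟩ : ∃ z : ℤ, z = c' + 3 ^ (m - e) * (3 ^ (o - m) * v₀ + (i : ℕ)) := ⟨_, rfl⟩
      have e1 : c + 3 ^ (m - e) * (3 ^ (o - m) * v₀ + (i : ℕ)) = z + h := by rw [hz, hh]; ring
      have e2 : 3 ^ m * ((i : ℕ) : ℤ) + (3 ^ e * (c' + 3 ^ (m - e) * (3 ^ (o - m) * v₀)) + ρ) = 3 ^ e * z + ρ := by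
        have e5 : (3 : ℤ) ^ m = 3 ^ e * 3 ^ (m - e) := by rw [← pow_add]; congr 1; omega
        rw [hz, e5]; ring
      have e3 : 3 ^ (e' + (m - e)) * ((i : ℕ) : ℤ) + (3 ^ e' * (c' + 3 ^ (m - e) * (3 ^ (o - m) * v₀)) + q₀) =
          3 ^ e' * z + q₀ := by rw [hz, pow_add]; ring
      rw [e1, ← hz, e2, e3, hH]
      simp only
      have e4 : 3 ^ e * (z + h) + ρ = 3 ^ e * z + ρ + 3 ^ e * h := by ring
      have e6 : 3 ^ e' * (z + h) + q₀ = 3 ^ e' * z + q₀ + 3 ^ e' * h := by ring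
      rw [e4, e6]
      have hpd := pair_diff hf hg (Pool.Agent.J4H39.rel_zero (3 ^ e * h) (3 ^ e * z + ρ))
        (Pool.Agent.J4H39.rel_zero (3 ^ e' * h) (3 ^ e' * z + q₀)) k
      have e5 : (1 + f (3 ^ e * z + ρ + 3 ^ e * h) * g (3 ^ e' * z + q₀ + 3 ^ e' * h)) / 2 -
          (1 + f (3 ^ e * z + ρ) * g (3 ^ e' * z + q₀)) / 2 =
          (f (3 ^ e * z + ρ + 3 ^ e * h) * g (3 ^ e' * z + q₀ + 3 ^ e' * h) -
          f (3 ^ e * z + ρ) * g (3 ^ e' * z + q₀)) / 2 := by ring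
      rw [e5, abs_div, abs_of_pos (by norm_num : (0 : ℝ) < 2)]
      linarith
    refine (sum_le_sum hpt).trans ?_
    rw [sum_add_distrib]
    have q1 := Pool.Agent.J4H39.cnt_aff (Pool.Agent.J4H39.per_ns k (0, 3 ^ e * h)) (Pool.Agent.J4H39.pow3_odd m)
      (3 ^ e * (c' + 3 ^ (m - e) * (3 ^ (o - m) * v₀)) + ρ) Z
    have q2 := Pool.Agent.J4H39.cnt_aff (Pool.Agent.J4H39.per_ns k (0, 3 ^ e' * h))
      (Pool.Agent.J4H39.pow3_odd (e' + (m - e))) (3 ^ e' * (c' + 3 ^ (m - e) * (3 ^ (o - m) * v₀)) + q₀) Z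
    have q3 : ((Z : ℝ) + 2 ^ k) * pb k (fun y => rn stP k (0, 3 ^ e * h) y ≠ (0, 0)) ≤ (2 * Z) * η :=
      mul_le_mul (by linarith) (hb e hea) (Pool.Agent.J4H39.pb_nonneg _ _) (by positivity)
    have q4 : ((Z : ℝ) + 2 ^ k) * pb k (fun y => rn stP k (0, 3 ^ e' * h) y ≠ (0, 0)) ≤ (2 * Z) * η :=
      mul_le_mul (by linarith) (hb e' hea') (Pool.Agent.J4H39.pb_nonneg _ _) (by positivity)
    linarith
  obtain ⟨V, hV⟩ : ∃ V, V = (1 + Av (fun t => f (3 ^ e * t + ρ) * g (3 ^ e' * t + q₀)) (3 ^ (o - e)) v₀ Y) / 2 := ⟨_, rfl⟩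
  rw [← hV]
  -- the average over the classes
  have claim2 : (Z : ℝ) * V = (∑ c₀ ∈ range (3 ^ (m - e)), A ((c₀ : ℕ) : ℤ)) / 3 ^ (m - e) := by
    have e1 : 3 ^ (o - e) * Y = 3 ^ (m - e) * Z := by
      rw [hZ, ← mul_assoc, ← pow_add]; congr 2; omega
    have e1r : (((3 ^ (o - e) : ℕ) : ℝ)) * Y = 3 ^ (m - e) * Z := by exact_mod_cast e1
    rw [hV, Av_half _ _ (Nat.one_le_pow _ _ (by norm_num)) hY, e1, Pool.Agent.J4H39.sum_block, sum_comm, e1r]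
    have e2 : ∑ y ∈ range (3 ^ (m - e)), ∑ x ∈ range Z, (1 + f (3 ^ e * (((3 ^ (o - e) : ℕ) : ℤ) * v₀ +
        ((y + 3 ^ (m - e) * x : ℕ) : ℤ)) + ρ) * g (3 ^ e' * (((3 ^ (o - e) : ℕ) : ℤ) * v₀ +
        ((y + 3 ^ (m - e) * x : ℕ) : ℤ)) + q₀)) / 2 = ∑ c₀ ∈ range (3 ^ (m - e)), A ((c₀ : ℕ) : ℤ) := by
      apply sum_congr rfl
      intro c₀ _
      rw [hA, hH]
      simp only
      apply sum_congr rfl
      intro i _
      have e3 : (3 : ℤ) ^ (o - e) = 3 ^ (m - e) * 3 ^ (o - m) := by rw [← pow_add]; congr 1; omega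
      have e4 : ((3 ^ (o - e) : ℕ) : ℤ) * v₀ + ((c₀ + 3 ^ (m - e) * i : ℕ) : ℤ) =
          (c₀ : ℤ) + 3 ^ (m - e) * (3 ^ (o - m) * v₀ + (i : ℕ)) := by
        push_cast
        rw [e3]; ring
      rw [e4]
    rw [e2]
    field_simp
  have hp : (0 : ℝ) < 3 ^ (m - e) := by positivity
  have e5 : A c₁ - Z * V = (∑ c₀ ∈ range (3 ^ (m - e)), (A c₁ - A ((c₀ : ℕ) : ℤ))) / 3 ^ (m - e) := by
    rw [claim2, sum_sub_distrib, sum_const, card_range, nsmul_eq_mul]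
    push_cast
    field_simp
  have hfin : |A c₁ - Z * V| ≤ 4 * η * Z := by
    rw [e5, abs_div, abs_of_pos hp, div_le_iff₀ hp]
    refine (abs_sum_le_sum_abs _ _).trans ?_
    have : ∑ c₀ ∈ range (3 ^ (m - e)), |A c₁ - A ((c₀ : ℕ) : ℤ)| ≤ ∑ c₀ ∈ range (3 ^ (m - e)), 4 * η * Z := by
      apply sum_le_sum
      intro c₀ hc₀
      rw [mem_range] at hc₀
      exact claim1 c₁ _ h0 h1 (by positivity) (by exact_mod_cast hc₀)
    rw [sum_const, card_range, nsmul_eq_mul] at this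
    push_cast at this
    linarith
  rw [hA, hH] at hfin
  exact hfin

theorem Av_shift {F : ℤ → ℝ} (hF : ∀ n, |F n| ≤ 1) {M : ℕ} (hM : 1 ≤ M) (v₀ q : ℤ) {Y : ℕ} (hY : 1 ≤ Y) :
    |Av (fun t => F (t + q)) M v₀ Y - Av F M v₀ Y| ≤ 2 * |(q : ℝ)| / Y := by
  have hM1 : (1 : ℝ) ≤ M := by exact_mod_cast hM
  have hY1 : (1 : ℝ) ≤ Y := by exact_mod_cast hY
  have h0 : (0 : ℝ) < (M : ℝ) * Y := by positivity
  unfold Av
  rw [← sub_div, abs_div, abs_of_pos h0]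
  have e1 : ∑ i ∈ range (M * Y), F ((M : ℤ) * v₀ + (i : ℕ) + q) =
      ∑ n ∈ Finset.Ico ((M : ℤ) * v₀ + q) ((M : ℤ) * v₀ + q + (M * Y : ℕ)), F n := by
    rw [range_blocks]
    apply sum_congr rfl
    intro i _
    congr 1; ring
  rw [e1, ← range_blocks]
  have h1 := sum_Ico_diff (B := 1) (by norm_num) hF ((M : ℤ) * v₀ + q) ((M : ℤ) * v₀ + q + (M * Y : ℕ))
    ((M : ℤ) * v₀) ((M : ℤ) * v₀ + (M * Y : ℕ))
  have e2 : 1 * (|((((M : ℤ) * v₀ + q : ℤ)) : ℝ) - (((M : ℤ) * v₀ : ℤ) : ℝ)| +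
      |((((M : ℤ) * v₀ + q + (M * Y : ℕ) : ℤ)) : ℝ) - (((M : ℤ) * v₀ + (M * Y : ℕ) : ℤ) : ℝ)|) = 2 * |(q : ℝ)| := by
    push_cast
    have e3 : (M : ℝ) * v₀ + q - M * v₀ = q := by ring
    have e4 : (M : ℝ) * v₀ + q + M * Y - (M * v₀ + M * Y) = q := by ring
    rw [e3, e4]; ring
  rw [e2] at h1
  calc _ ≤ 2 * |(q : ℝ)| / (M * Y) := div_le_div_of_nonneg_right h1 h0.le
    _ ≤ 2 * |(q : ℝ)| / Y := by
      apply div_le_div_of_nonneg_left (by positivity) (by positivity)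
      nlinarith

/-- the value at the label -/
noncomputable def VG (f g : ℤ → ℝ) (v₀ : ℤ) (Y o : ℕ) (s : ℤ × ℤ) : ℝ :=
  if 0 ≤ s.1 then Av (fun t => f t * g (3 ^ s.1.toNat * t + s.2)) (3 ^ o) v₀ Y
  else Av (fun t => g t * f (3 ^ (-s.1).toNat * t + (-s.2))) (3 ^ (o - (-s.1).toNat)) v₀ Y

theorem VG_bd {f g : ℤ → ℝ} (hf : Iv f) (hg : Iv g) (v₀ : ℤ) {Y : ℕ} (hY : 1 ≤ Y) (o : ℕ) (s : ℤ × ℤ) :
    |VG f g v₀ Y o s| ≤ 1 := by
  unfold VG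
  split_ifs
  · exact Av_bd (fun n => prod_bd hf hg _ _) (Nat.one_le_pow _ _ (by norm_num)) hY
  · exact Av_bd (fun n => prod_bd hg hf _ _) (Nat.one_le_pow _ _ (by norm_num)) hY

/-- one stage, aligned intervals, labels of any sign -/
theorem alignedG {f g : ℤ → ℝ} (hf : Iv f) (hg : Iv g) {D : ℕ} {r : ℤ} {j k m a b o₀ : ℕ} {η ε : ℝ}
    (hmk : m + k ≤ o₀) (ham : a ≤ m) (hη : ∀ r : ℤ, |r| ≤ 4 ^ (m + 1 + a) → ns k (0, r) ≤ η)
    (v₀ : ℤ) {Y : ℕ} (hY : 1 ≤ Y) (hε : (4 : ℝ) ^ b + 1 ≤ ε * Y) (Lg : ℕ × (Fin 1 → ℤ × ℤ) → Prop)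
    (hL : ∀ μ, Lg μ → o₀ ≤ μ.1 ∧ GS a b (μ.2 0)) :
    |Av (fun n => f n * g (3 ^ D * n + r)) (2 ^ j) v₀ Y -
      ex j (fun w => VG f g v₀ Y (od j w) (rn stP j ((D : ℤ), r) w))| ≤
      2 * (DV stK j (fun _ : Fin 1 => ((D : ℤ), r)) m + (4 * η + ε) +
        pb j (fun w => ¬ Lg (lb stK j (fun _ : Fin 1 => ((D : ℤ), r)) w))) := by
  classical
  obtain ⟨s₁, hs₁⟩ : ∃ s₁ : Fin 1 → ℤ × ℤ, s₁ = fun _ => ((D : ℤ), r) := ⟨_, rfl⟩
  rw [← hs₁]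
  have hη0 : 0 ≤ η := (Pool.Agent.J4H39.ns_nonneg k (0, 0)).trans (hη 0 (by simp))
  have hY0 : (0 : ℝ) < Y := by exact_mod_cast hY
  have hε0 : 0 ≤ ε := by
    by_contra hcon
    push Not at hcon
    have : ε * Y < 0 := mul_neg_of_neg_of_pos hcon hY0
    have : (0 : ℝ) < 4 ^ b := by positivity
    linarith
  have hFp : ∀ (s : ℤ × ℤ) (z : ℤ), |Fp f g s z| ≤ 1 := fun s z => prod_bd hf hg _ _
  obtain ⟨gg, hgg⟩ : ∃ gg : ℕ × (Fin 1 → ℤ × ℤ) → ℤ → ℝ, gg = fun μ z => (1 + Fp f g (μ.2 0) z) / 2 := ⟨_, rfl⟩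
  obtain ⟨V, hV⟩ : ∃ V : ℕ × (Fin 1 → ℤ × ℤ) → ℝ,
    V = fun μ => (1 + VG f g v₀ Y μ.1 (μ.2 0)) / 2 := ⟨_, rfl⟩
  have key := Pool.Agent.J4H39.stage stK s₁ (j := j) (m := m) gg
    (fun μ z => by rw [hgg]; exact (abs_half (hFp _ _)).1)
    (fun μ z => by rw [hgg]; exact (abs_half (hFp _ _)).2) V
    (fun μ => by rw [hV]; exact (abs_half (VG_bd hf hg _ hY _ _)).1)
    (fun μ => by rw [hV]; exact (abs_half (VG_bd hf hg _ hY _ _)).2) v₀ Y (δ := 4 * η + ε) (by positivity)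
    Lg (fun μ h => by have := (hL μ h).1; omega) (by
      intro w hw hgood c hc0 hc1 hdvd
      obtain ⟨h1, h2⟩ := hL _ hgood
      obtain ⟨μ, hμ⟩ : ∃ μ, μ = lb stK j s₁ ((w : ℕ) : ℤ) := ⟨_, rfl⟩
      have hμ2 : μ.2 0 = rn stP j ((D : ℤ), r) ((w : ℕ) : ℤ) := by
        rw [hμ]
        unfold lb
        simp only
        rw [Pool.Agent.J4H39.rn_stK_apply, hs₁]
      rw [← hμ] at h1 h2 ⊢
      obtain ⟨o, ho⟩ : ∃ o, o = μ.1 := ⟨_, rfl⟩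
      rw [← ho] at h1 ⊢
      obtain ⟨s, hs⟩ : ∃ s, s = μ.2 0 := ⟨_, rfl⟩
      rw [← hs] at h2 hμ2
      have hgs : gg μ = fun z => (1 + Fp f g s z) / 2 := by rw [hgg, hs]
      have hVs : V μ = (1 + VG f g v₀ Y o s) / 2 := by rw [hV, hs, ho]
      rw [hgs, hVs]
      obtain ⟨Z, hZ⟩ : ∃ Z, Z = 3 ^ (o - m) * Y := ⟨_, rfl⟩
      have hZ0 : (0 : ℝ) ≤ ((3 ^ (o - m) * Y : ℕ) : ℝ) := by positivity
      by_cases hsg : 0 ≤ s.1
      · -- the label is nonnegative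
        obtain ⟨d, hd⟩ := Int.eq_ofNat_of_zero_le hsg
        obtain ⟨r', hr'⟩ : ∃ r', r' = s.2 := ⟨_, rfl⟩
        have hs' : s = ((d : ℤ), r') := by rw [hr', ← hd]
        have hda : d ≤ a := by
          have := h2.1
          rw [hd, abs_of_nonneg (by positivity)] at this
          exact_mod_cast this
        have hc := core hf hg (e := 0) (e' := d) (a := a) hη (Nat.zero_le m) (Nat.zero_le a) hda
          (hmk.trans h1) 0 r' v₀ hY c hc0 (by rw [Nat.sub_zero]; exact hc1)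
        have e1 : VG f g v₀ Y o s = Av (fun t => f (3 ^ 0 * t + 0) * g (3 ^ d * t + r')) (3 ^ (o - 0)) v₀ Y := by
          unfold VG
          rw [if_pos hsg, hs']
          simp only [Int.toNat_natCast, pow_zero, one_mul, add_zero, Nat.sub_zero]
        have e2 : ∀ t, (1 + Fp f g s t) / 2 = (1 + f (3 ^ 0 * t + 0) * g (3 ^ d * t + r')) / 2 := by
          intro t
          unfold Fp
          rw [hs', Pool.Agent.J4H39.par_eq (Pool.Agent.J4H39.rel_nat d r' t)]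
          simp only [pow_zero, one_mul, add_zero]
        rw [e1]
        simp only [e2]
        rw [Nat.sub_zero] at hc
        refine hc.trans ?_
        have : 0 ≤ ε * ((3 ^ (o - m) * Y : ℕ) : ℝ) := by positivity
        linarith
      · -- the label is negative
        obtain ⟨d, hd⟩ := Int.eq_ofNat_of_zero_le (show 0 ≤ -s.1 by omega)
        have hd' : s.1 = -(d : ℤ) := by omega
        obtain ⟨r', hr'⟩ : ∃ r', r' = s.2 := ⟨_, rfl⟩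
        have hs' : s = (-(d : ℤ), r') := by rw [hr', ← hd']
        have hda : d ≤ a := by
          have := h2.1
          rw [hd', abs_neg, abs_of_nonneg (by positivity)] at this
          exact_mod_cast this
        have hdm : d ≤ m := hda.trans ham
        have hrb : |r'| ≤ 4 ^ b := by rw [hr']; exact h2.2
        -- the class is compatible
        have hrel := (Pool.Agent.J4H39.rel_rn (Pool.Agent.J4H39.rel_nat D r ((w : ℕ) : ℤ)) j).1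
        rw [← hμ2, hs'] at hrel
        unfold Pool.Agent.J4H39.Rel at hrel
        simp only [neg_neg, Int.toNat_natCast] at hrel
        have ht0 : (-(d : ℤ)).toNat = 0 := by omega
        rw [ht0, pow_zero, one_mul] at hrel
        have hdv1 : (3 : ℤ) ^ d ∣ T^[j] ((w : ℕ) : ℤ) + r' := ⟨_, hrel.symm⟩
        have hdv2 : (3 : ℤ) ^ d ∣ T^[j] ((w : ℕ) : ℤ) - c := (pow_dvd_pow 3 hdm).trans hdvd
        have hdv3 : (3 : ℤ) ^ d ∣ c + r' := by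
          have := dvd_sub hdv1 hdv2
          have e1 : T^[j] ((w : ℕ) : ℤ) + r' - (T^[j] ((w : ℕ) : ℤ) - c) = c + r' := by ring
          rwa [e1] at this
        obtain ⟨ρ, hρ⟩ : ∃ ρ, ρ = c % 3 ^ d := ⟨_, rfl⟩
        obtain ⟨c₁, hc₁⟩ : ∃ c₁, c₁ = c / 3 ^ d := ⟨_, rfl⟩
        have hp3 : (0 : ℤ) < 3 ^ d := by positivity
        have hcc : 3 ^ d * c₁ + ρ = c := by rw [hρ, hc₁]; exact Int.mul_ediv_add_emod c (3 ^ d)
        have hρ0 : 0 ≤ ρ := by rw [hρ]; exact Int.emod_nonneg _ hp3.ne'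
        have hρ1 : ρ < 3 ^ d := by rw [hρ]; exact Int.emod_lt_of_pos _ hp3
        have hc10 : 0 ≤ c₁ := by rw [hc₁]; exact Int.ediv_nonneg hc0 hp3.le
        have hc11 : c₁ < 3 ^ (m - d) := by
          have e1 : (3 : ℤ) ^ m = 3 ^ d * 3 ^ (m - d) := by rw [← pow_add]; congr 1; omega
          have : (3 : ℤ) ^ d * c₁ < 3 ^ d * 3 ^ (m - d) := by rw [← e1]; linarith
          exact lt_of_mul_lt_mul_left this hp3.le
        have hdv4 : (3 : ℤ) ^ d ∣ ρ + r' := by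
          have : ρ + r' = c + r' - 3 ^ d * c₁ := by rw [← hcc]; ring
          rw [this]
          exact dvd_sub hdv3 (dvd_mul_right _ _)
        obtain ⟨q₀, hq₀⟩ := hdv4
        have hc := core hf hg (e := d) (e' := 0) (a := a) hη hdm hda (Nat.zero_le a)
          (hmk.trans h1) ρ q₀ v₀ hY c₁ hc10 hc11
        -- the values of the function
        have e2 : ∀ i : ℕ, (1 + Fp f g s (c + 3 ^ m * (3 ^ (o - m) * v₀ + (i : ℕ)))) / 2 =
            (1 + f (3 ^ d * (c₁ + 3 ^ (m - d) * (3 ^ (o - m) * v₀ + (i : ℕ))) + ρ) *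
              g (3 ^ 0 * (c₁ + 3 ^ (m - d) * (3 ^ (o - m) * v₀ + (i : ℕ))) + q₀)) / 2 := by
          intro i
          obtain ⟨t, ht⟩ : ∃ t : ℤ, t = c₁ + 3 ^ (m - d) * (3 ^ (o - m) * v₀ + (i : ℕ)) := ⟨_, rfl⟩
          have e1 : (3 : ℤ) ^ m = 3 ^ d * 3 ^ (m - d) := by rw [← pow_add]; congr 1; omega
          have e3 : c + 3 ^ m * (3 ^ (o - m) * v₀ + (i : ℕ)) = 3 ^ d * t + ρ := by
            rw [ht, ← hcc, e1]; ring
          rw [e3, ← ht]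
          have hrel2 : Pool.Agent.J4H39.Rel s (3 ^ d * t + ρ) (t + q₀) := by
            unfold Pool.Agent.J4H39.Rel
            rw [hs']
            simp only [neg_neg, Int.toNat_natCast]
            rw [ht0, pow_zero, one_mul]
            linear_combination -hq₀
          unfold Fp
          rw [Pool.Agent.J4H39.par_eq hrel2, pow_zero, one_mul]
        have e9 : ∑ i ∈ range (3 ^ (o - m) * Y), (fun z => (1 + Fp f g s z) / 2)
            (c + 3 ^ m * (3 ^ (o - m) * v₀ + (i : ℕ))) = ∑ i ∈ range (3 ^ (o - m) * Y),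
            (1 + f (3 ^ d * (c₁ + 3 ^ (m - d) * (3 ^ (o - m) * v₀ + (i : ℕ))) + ρ) *
              g (3 ^ 0 * (c₁ + 3 ^ (m - d) * (3 ^ (o - m) * v₀ + (i : ℕ))) + q₀)) / 2 :=
          sum_congr rfl fun i _ => e2 i
        rw [e9]
        -- the shift
        have e3 : (fun t => f (3 ^ d * t + ρ) * g (3 ^ 0 * t + q₀)) =
            fun t => (fun p => g p * f (3 ^ d * p + (-r'))) (t + q₀) := by
          funext t
          simp only
          rw [pow_zero, one_mul, mul_comm]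
          congr 2
          linear_combination hq₀
        rw [e3] at hc
        have hsh := Av_shift (F := fun p => g p * f (3 ^ d * p + (-r'))) (fun n => prod_bd hg hf _ _)
          (M := 3 ^ (o - d)) (Nat.one_le_pow _ _ (by norm_num)) v₀ q₀ hY
        have e4 : VG f g v₀ Y o s = Av (fun p => g p * f (3 ^ d * p + (-r'))) (3 ^ (o - d)) v₀ Y := by
          unfold VG
          rw [if_neg hsg, hs']
          simp only [neg_neg, Int.toNat_natCast]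
        rw [e4]
        have hqb : |q₀| ≤ 4 ^ b + 1 := by
          have a1 : 3 ^ d * |q₀| ≤ 3 ^ d * (4 ^ b + 1) := by
            have a2 : 3 ^ d * |q₀| = |ρ + r'| := by rw [hq₀, abs_mul, abs_of_pos hp3]
            have a3 := abs_add_le ρ r'
            rw [abs_of_nonneg hρ0] at a3
            have a4 : (1 : ℤ) ≤ 3 ^ d := by linarith
            have a5 : (4 : ℤ) ^ b ≤ 3 ^ d * 4 ^ b := le_mul_of_one_le_left (by positivity) a4
            rw [a2]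
            linarith
          exact le_of_mul_le_mul_left a1 hp3
        have hqR : |(q₀ : ℝ)| ≤ 4 ^ b + 1 := by exact_mod_cast hqb
        have hsh2 : 2 * |(q₀ : ℝ)| / Y ≤ 2 * ε := by
          rw [div_le_iff₀ hY0]
          linarith
        obtain ⟨A₁, hA₁⟩ : ∃ A₁, A₁ = Av (fun t => (fun p => g p * f (3 ^ d * p + (-r'))) (t + q₀)) (3 ^ (o - d)) v₀ Y :=
          ⟨_, rfl⟩
        obtain ⟨A₂, hA₂⟩ : ∃ A₂, A₂ = Av (fun p => g p * f (3 ^ d * p + (-r'))) (3 ^ (o - d)) v₀ Y := ⟨_, rfl⟩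
        rw [← hA₁] at hc
        rw [← hA₁, ← hA₂] at hsh
        rw [← hA₂]
        have hA12 : |A₁ - A₂| ≤ 2 * ε := hsh.trans hsh2
        have hZA : |((3 ^ (o - m) * Y : ℕ) : ℝ) * ((1 + A₁) / 2) - ((3 ^ (o - m) * Y : ℕ) : ℝ) * ((1 + A₂) / 2)| ≤
            ε * ((3 ^ (o - m) * Y : ℕ) : ℝ) := by
          have e5 : ((3 ^ (o - m) * Y : ℕ) : ℝ) * ((1 + A₁) / 2) - ((3 ^ (o - m) * Y : ℕ) : ℝ) * ((1 + A₂) / 2) =
              ((3 ^ (o - m) * Y : ℕ) : ℝ) * ((A₁ - A₂) / 2) := by ring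
          rw [e5, abs_mul, abs_of_nonneg hZ0, abs_div, abs_of_pos (by norm_num : (0 : ℝ) < 2), mul_comm]
          apply mul_le_mul_of_nonneg_right _ hZ0
          linarith
        refine (abs_sub_le _ _ _).trans ((add_le_add hc hZA).trans ?_)
        linarith)
  -- the identity
  obtain ⟨G, hG⟩ : ∃ G : ℤ → ℝ, G = fun n => f n * g (3 ^ D * n + r) := ⟨_, rfl⟩
  have e1 : ex j (fun w => ∑ v ∈ range Y, gg (lb stK j s₁ w) (T^[j] w % 3 ^ od j w + 3 ^ od j w * (v₀ + (v : ℕ)))) =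
      (∑ u ∈ range (2 ^ j * Y), (1 + G (((2 ^ j : ℕ) : ℤ) * v₀ + (u : ℕ))) / 2) / 2 ^ j := by
    unfold ex
    congr 1
    rw [Pool.Agent.J4H39.sum_block, sum_comm]
    apply sum_congr rfl
    intro v _
    apply sum_congr rfl
    intro w hw
    rw [mem_range] at hw
    rw [Pool.Agent.J4H39.T_mod j (by positivity) (by exact_mod_cast hw), ← Pool.Agent.J4H39.T_add]
    obtain ⟨n, hn⟩ : ∃ n : ℤ, n = ((w : ℕ) : ℤ) + 2 ^ j * (v₀ + (v : ℕ)) := ⟨_, rfl⟩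
    have h2 : (lb stK j s₁ ((w : ℕ) : ℤ)).2 0 = rn stP j ((D : ℤ), r) n := by
      have h3 : (lb stK j s₁ ((w : ℕ) : ℤ)).2 0 = rn stP j ((D : ℤ), r) ((w : ℕ) : ℤ) := by
        unfold lb
        simp only
        rw [Pool.Agent.J4H39.rn_stK_apply, hs₁]
      rw [h3, hn]
      exact (Pool.Agent.J4H39.per_rn stP _ (le_refl j) ((w : ℕ) : ℤ) (v₀ + (v : ℕ))).symm
    rw [hgg]
    simp only
    rw [h2, ← hn]
    unfold Fp
    rw [Pool.Agent.J4H39.par_eq ((Pool.Agent.J4H39.rel_rn (Pool.Agent.J4H39.rel_nat D r n) j).1),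
      Iv_iter hf, Iv_iter hg, hG]
    have h4 : ((2 ^ j : ℕ) : ℤ) * v₀ + ((w + 2 ^ j * v : ℕ) : ℤ) = n := by rw [hn]; push_cast; ring
    rw [h4]
  rw [e1] at key
  have e2 : (1 + Av G (2 ^ j) v₀ Y) / 2 = (∑ u ∈ range (2 ^ j * Y), (1 + G (((2 ^ j : ℕ) : ℤ) * v₀ + (u : ℕ))) / 2) /
      2 ^ j / Y := by
    rw [Av_half G v₀ (Nat.one_le_pow _ _ (by norm_num)) hY]
    push_cast
    rw [div_div]
  have e3 : ex j (fun w => V (lb stK j s₁ w)) =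
      (1 + ex j (fun w => VG f g v₀ Y (od j w) (rn stP j ((D : ℤ), r) w))) / 2 := by
    have e4 : ∀ w, V (lb stK j s₁ w) = 1 / 2 + (1 / 2) * VG f g v₀ Y (od j w) (rn stP j ((D : ℤ), r) w) := by
      intro w
      have h3 : (lb stK j s₁ w).2 0 = rn stP j ((D : ℤ), r) w := by
        unfold lb
        simp only
        rw [Pool.Agent.J4H39.rn_stK_apply, hs₁]
      rw [hV]
      simp only
      rw [h3]
      have h5 : (lb stK j s₁ w).1 = od j w := rfl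
      rw [h5]; ring
    rw [ex_congr e4, ex_add, ex_const, ex_mul]; ring
  rw [e3] at key
  obtain ⟨S, hS⟩ : ∃ S : ℝ, S = (∑ u ∈ range (2 ^ j * Y), (1 + G (((2 ^ j : ℕ) : ℤ) * v₀ + (u : ℕ))) / 2) / 2 ^ j :=
    ⟨_, rfl⟩
  rw [← hS] at key e2
  obtain ⟨E, hE⟩ : ∃ E : ℝ, E = ex j (fun w => VG f g v₀ Y (od j w) (rn stP j ((D : ℤ), r) w)) := ⟨_, rfl⟩
  rw [← hE] at key ⊢
  rw [← hG]
  have e6 : Av G (2 ^ j) v₀ Y - E = 2 * ((S - Y * ((1 + E) / 2)) / Y) := by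
    have : S = Y * ((1 + Av G (2 ^ j) v₀ Y) / 2) := by rw [e2]; field_simp
    rw [this]
    field_simp
    ring
  rw [e6, abs_mul, abs_of_pos (by norm_num : (0 : ℝ) < 2), abs_div, abs_of_pos hY0]
  apply mul_le_mul_of_nonneg_left _ (by norm_num)
  rw [div_le_iff₀ hY0]
  linarith

end Pool.Agent.J4H94.PC
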