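import Mathlib
import Pool.Agent.J4H94.PC.G1a

set_option autoImplicit false

/-! Project PC, job B1: `S_G1P`, one stage, labels of any sign. -/

namespace Pool.Agent.J4H94.PC

open Finset Filter Real
open Pool.Agent.J4H39 (T od ex pb ns rn stP stK lb GK GS Cm DV th0 Per id1 id1_pos id1_neg id1_nonneg id1_le_one par
  ex_mono ex_congr ex_add ex_mul ex_const)
open Pool.Agent.J4H26.PC
open Pool.Agent.J4H95.PC

theorem cg_bd {f g : ℤ → ℝ} (hf : Iv f) (hg : Iv g) (κ : ℝ) {X : ℝ} (hX : 0 ≤ X) (s : ℤ × ℤ) :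
    |cg f g κ X s| ≤ 2 := by
  unfold cg
  split_ifs
  · exact cc_bd hf hg κ hX _ _
  · exact cc_bd hg hf κ (by positivity) _ _

/-- one stage -/
theorem stage_cg {f g : ℤ → ℝ} (hf : Iv f) (hg : Iv g) {D : ℕ} {r : ℤ} {j k m a b o₀ : ℕ} {η ε : ℝ}
    (hmk : m + k ≤ o₀) (ham : a ≤ m) (hη : ∀ r : ℤ, |r| ≤ 4 ^ (m + 1 + a) → ns k (0, r) ≤ η)
    (Lg : ℕ × (Fin 1 → ℤ × ℤ) → Prop)
    (hL : ∀ μ, Lg μ → o₀ ≤ μ.1 ∧ GS a b (μ.2 0)) (κ : ℝ) {X : ℝ} (hX : (2 : ℝ) ^ (j + 1) ≤ X)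
    (hε : 2 * ((4 : ℝ) ^ b + 1) ≤ ε * (X / 2 ^ j)) :
    |cc f g κ X D r - ex j (fun y => cg f g κ (3 ^ od j y * X / 2 ^ j) (rn stP j ((D : ℤ), r) y))| ≤
      10 * (2 ^ j / X) + 2 * (DV stK j (fun _ : Fin 1 => ((D : ℤ), r)) m) + 8 * η + 2 * ε +
        5 * pb j (fun w => ¬ Lg (lb stK j (fun _ : Fin 1 => ((D : ℤ), r)) w)) := by
  classical
  obtain ⟨U, hUd⟩ : ∃ U : ℝ, U = X / 2 ^ j := ⟨_, rfl⟩
  have h2j : (0 : ℝ) < 2 ^ j := by positivity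
  have hX0 : 0 < X := lt_of_lt_of_le (by positivity) hX
  have hU : 2 ≤ U := by
    rw [hUd, le_div_iff₀ h2j]
    calc 2 * (2 : ℝ) ^ j = 2 ^ (j + 1) := by ring
      _ ≤ X := hX
  have hU0 : 0 < U := by linarith
  rw [← hUd] at hε
  have hε0 : 0 ≤ ε := by
    by_contra hcon
    push Not at hcon
    have : ε * U < 0 := mul_neg_of_neg_of_pos hcon hU0
    have : (0 : ℝ) < 4 ^ b := by positivity
    linarith
  obtain ⟨v₀, hv₀⟩ : ∃ v₀, v₀ = ⌊κ * U⌋ := ⟨_, rfl⟩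
  obtain ⟨Y, hY⟩ : ∃ Y, Y = (⌊κ * U + U⌋ - ⌊κ * U⌋).toNat := ⟨_, rfl⟩
  have f1 := Int.floor_le (κ * U)
  have f4 := Int.lt_floor_add_one (κ * U + U)
  have hlt : ⌊κ * U⌋ < ⌊κ * U + U⌋ := by
    have : ((⌊κ * U⌋ : ℤ) : ℝ) < ((⌊κ * U + U⌋ : ℤ) : ℝ) := by linarith
    exact_mod_cast this
  have hY1 : 1 ≤ Y := by omega
  have hYU : U / 2 ≤ Y := by
    have e1 : ((Y : ℕ) : ℤ) = ⌊κ * U + U⌋ - ⌊κ * U⌋ := by rw [hY]; exact Int.toNat_of_nonneg (by omega)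
    have e2 : (Y : ℝ) = (⌊κ * U + U⌋ : ℝ) - ⌊κ * U⌋ := by exact_mod_cast e1
    rw [e2]
    linarith
  have hεY : (4 : ℝ) ^ b + 1 ≤ ε * Y := by
    have : ε * (U / 2) ≤ ε * Y := mul_le_mul_of_nonneg_left hYU hε0
    linarith
  have hFb : ∀ (D : ℕ) (r : ℤ) (n : ℤ), |(fun n => f n * g (3 ^ D * n + r)) n| ≤ 1 := fun _ _ _ => prod_bd hf hg _ _
  have hFb' : ∀ (D : ℕ) (r : ℤ) (n : ℤ), |(fun n => g n * f (3 ^ D * n + r)) n| ≤ 1 := fun _ _ _ => prod_bd hg hf _ _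
  -- the left side
  have hXU : X = ((2 ^ j : ℕ) : ℝ) * U := by rw [hUd]; push_cast; field_simp
  have s1 : |cc f g κ X D r - Av (fun n => f n * g (3 ^ D * n + r)) (2 ^ j) v₀ Y| ≤ 5 / U := by
    have := Av_cc (hFb D r) (M := 2 ^ j) (Nat.one_le_pow _ _ (by norm_num)) (κ := κ) hU
    rw [← hXU, ← hY, ← hv₀] at this
    exact this
  have s2 := alignedG hf hg (D := D) (r := r) (j := j) hmk ham hη v₀ hY1 hεY Lg hL
  -- the right side
  have hpt : ∀ w, |VG f g v₀ Y (od j w) (rn stP j ((D : ℤ), r) w) -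
      cg f g κ (3 ^ od j w * X / 2 ^ j) (rn stP j ((D : ℤ), r) w)| ≤
      5 / U + 3 * id1 (¬ Lg (lb stK j (fun _ : Fin 1 => ((D : ℤ), r)) w)) := by
    intro w
    have h5 : 0 ≤ 5 / U := by positivity
    have h3 : (lb stK j (fun _ : Fin 1 => ((D : ℤ), r)) w).2 0 = rn stP j ((D : ℤ), r) w := by
      unfold lb
      simp only
      rw [Pool.Agent.J4H39.rn_stK_apply]
    have hXw : 3 ^ od j w * X / 2 ^ j = ((3 ^ od j w : ℕ) : ℝ) * U := by rw [hUd]; push_cast; ring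
    by_cases hg1 : Lg (lb stK j (fun _ : Fin 1 => ((D : ℤ), r)) w)
    · rw [id1_neg (fun h => h hg1), mul_zero, add_zero]
      obtain ⟨h6, h7⟩ := hL _ hg1
      rw [h3] at h7
      have h8 : o₀ ≤ od j w := h6
      obtain ⟨s, hs⟩ : ∃ s, s = rn stP j ((D : ℤ), r) w := ⟨_, rfl⟩
      rw [← hs] at h7 ⊢
      unfold VG cg
      by_cases hsg : 0 ≤ s.1
      · rw [if_pos hsg, if_pos hsg, abs_sub_comm, hXw]
        have := Av_cc (hFb s.1.toNat s.2) (M := 3 ^ od j w) (Nat.one_le_pow _ _ (by norm_num)) (κ := κ) hU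
        rw [← hY, ← hv₀] at this
        exact this
      · rw [if_neg hsg, if_neg hsg, abs_sub_comm]
        have hda : (-s.1).toNat ≤ od j w := by
          have h9 := h7.1
          rw [abs_le] at h9
          omega
        have e1 : 3 ^ od j w * X / 2 ^ j / 3 ^ (-s.1).toNat = ((3 ^ (od j w - (-s.1).toNat) : ℕ) : ℝ) * U := by
          rw [hXw]
          push_cast
          have e2 : (3 : ℝ) ^ od j w = 3 ^ (od j w - (-s.1).toNat) * 3 ^ (-s.1).toNat := by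
            rw [← pow_add]; congr 1; omega
          rw [e2]
          field_simp
        rw [e1]
        have := Av_cc (hFb' (-s.1).toNat (-s.2)) (M := 3 ^ (od j w - (-s.1).toNat))
          (Nat.one_le_pow _ _ (by norm_num)) (κ := κ) hU
        rw [← hY, ← hv₀] at this
        exact this
    · rw [id1_pos hg1]
      have a1 := VG_bd hf hg v₀ hY1 (od j w) (rn stP j ((D : ℤ), r) w)
      have a2 : |cg f g κ (3 ^ od j w * X / 2 ^ j) (rn stP j ((D : ℤ), r) w)| ≤ 2 := cg_bd hf hg κ (by positivity) _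
      have a3 := abs_sub (VG f g v₀ Y (od j w) (rn stP j ((D : ℤ), r) w))
        (cg f g κ (3 ^ od j w * X / 2 ^ j) (rn stP j ((D : ℤ), r) w))
      linarith
  have s3 := ex_diff (j := j) hpt
  have hfin := (abs_sub_le (cc f g κ X D r) (Av (fun n => f n * g (3 ^ D * n + r)) (2 ^ j) v₀ Y)
    (ex j (fun y => cg f g κ (3 ^ od j y * X / 2 ^ j) (rn stP j ((D : ℤ), r) y))))
  have hfin2 := (abs_sub_le (Av (fun n => f n * g (3 ^ D * n + r)) (2 ^ j) v₀ Y)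
    (ex j (fun w => VG f g v₀ Y (od j w) (rn stP j ((D : ℤ), r) w)))
    (ex j (fun y => cg f g κ (3 ^ od j y * X / 2 ^ j) (rn stP j ((D : ℤ), r) y))))
  have e9 : 5 / U = 5 * (2 ^ j / X) := by rw [hUd]; field_simp
  rw [e9] at s1 s3
  linarith

theorem stage_rateG (h1 : S_DVR) (h2 : S_LABR) (c : ℕ) : ∃ C : ℝ, 0 < C ∧ ∀ᶠ w : ℕ in atTop, ∀ j, w ^ 80 ≤ j →
    j ≤ 2 * w ^ 80 → ∀ f g : ℤ → ℝ, Iv f → Iv g → ∀ κ X : ℝ, (2 : ℝ) ^ (3 * j) ≤ X → ∀ (D : ℕ) (r : ℤ),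
    GS (c * w ^ 48) (c * w ^ 56) ((D : ℤ), r) →
    |cc f g κ X D r - ex j (fun y => cg f g κ (3 ^ od j y * X / 2 ^ j) (rn stP j ((D : ℤ), r) y))| ≤ C / w := by
  obtain ⟨C₀, hC₀, hη⟩ := eta_rate
  refine ⟨8 * C₀ + 19, by positivity, ?_⟩
  have t4 : Tendsto (fun w : ℕ => w ^ 4) atTop atTop := tendsto_pow_atTop (by norm_num)
  filter_upwards [hη, t4.eventually (h1 1 c 1), t4.eventually (h2 1 c 1), eventually_ge_atTop 40,
    eventually_ge_atTop (2 * c + 4)] with w e1 e2 e3 hw hwc j hj1 hj2 f g hf hg κ X hX D r hGS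
  have z20 : (w ^ 4) ^ 20 = w ^ 80 := by ring
  have z12 : (w ^ 4) ^ 12 = w ^ 48 := by ring
  have z14 : (w ^ 4) ^ 14 = w ^ 56 := by ring
  have z19 : (w ^ 4) ^ 19 = w ^ 76 := by ring
  have z11 : (w ^ 4) ^ 11 = w ^ 44 := by ring
  rw [z20, z12, z14, z19] at e2
  rw [z20, z12, z14, z11] at e3
  have hw1 : 1 ≤ w := by omega
  have hwR : (1 : ℝ) ≤ w := by exact_mod_cast hw1
  have hw0 : (0 : ℝ) < w := by linarith
  have hz40 : 40 ≤ w ^ 4 := le_trans hw (Nat.le_self_pow (by norm_num) w)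
  have hzc : 2 * c + 4 ≤ w ^ 4 := le_trans hwc (Nat.le_self_pow (by norm_num) w)
  obtain ⟨n1, n2, n3, _⟩ := Pool.Agent.J4H39.nat_facts (j := j) hz40 hzc (by rw [z20]; exact hj1)
  rw [z12, z19] at n1
  rw [z14, z19] at n2
  rw [z19, z11] at n3
  have hG : GK (c * w ^ 48) (c * w ^ 56) (fun _ : Fin 1 => ((D : ℤ), r)) := fun _ => hGS
  have hC : Cm (fun _ : Fin 1 => ((D : ℤ), r)) := Pool.Agent.J4H39.Cm_nonneg fun _ => by simp
  have hDV := e2 j hj1 hj2 _ hG hC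
  have hLB := e3 j hj1 hj2 _ hG
  have hinv : 1 / (((w ^ 4 : ℕ)) : ℝ) ^ 1 ≤ 1 / w := by
    rw [pow_one]
    apply one_div_le_one_div_of_le hw0
    exact_mod_cast Nat.le_self_pow (by norm_num) w
  have hjw : w ≤ j := le_trans (Nat.le_self_pow (by norm_num) w) hj1
  have hj1' : 1 ≤ j := by omega
  obtain ⟨Lg, hLg⟩ : ∃ Lg : ℕ × (Fin 1 → ℤ × ℤ) → Prop, Lg = fun μ => (j - w ^ 44) / 2 ≤ μ.1 ∧
    GK ((2 * c + 4) * w ^ 48) ((2 * c + 4) * w ^ 56) μ.2 := ⟨_, rfl⟩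
  have hpb : pb j (fun y => ¬ Lg (lb stK j (fun _ : Fin 1 => ((D : ℤ), r)) y)) ≤ 1 / w := by
    refine le_trans (Pool.Agent.J4H39.pb_mono ?_) (hLB.trans hinv)
    intro y hy hy'
    apply hy
    rw [hLg]
    exact hy'
  have h40 : 40 * w ^ 76 ≤ w ^ 80 := by
    calc 40 * w ^ 76 ≤ w * w ^ 76 := Nat.mul_le_mul_right _ hw
      _ = w ^ 77 := by ring
      _ ≤ w ^ 80 := Nat.pow_le_pow_right hw1 (by norm_num)
  have h76 : 1 ≤ w ^ 76 := Nat.one_le_pow _ _ hw1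
  have hX' : (2 : ℝ) ^ (j + 1) ≤ X := le_trans (pow_le_pow_right₀ (by norm_num) (by omega)) hX
  have hX0 : 0 < X := lt_of_lt_of_le (by positivity) hX
  have hwj : (w : ℝ) ≤ 2 ^ j := by
    have : w ≤ 2 ^ j := le_trans hjw (Nat.lt_two_pow_self).le
    exact_mod_cast this
  have key := stage_cg hf hg (D := D) (r := r) (j := j) (k := j / 8) (m := w ^ 76) (a := (2 * c + 4) * w ^ 48)
    (b := (2 * c + 4) * w ^ 56) (o₀ := (j - w ^ 44) / 2) (η := C₀ / w) (ε := 1 / w) n3 n1 (by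
      intro r' hr'
      refine e1 j hj1 hj2 _ ?_ r' hr'
      omega) Lg (by
      intro μ hμ
      rw [hLg] at hμ
      exact ⟨hμ.1, hμ.2 0⟩) κ hX' (by
      have h2j : (0 : ℝ) < 2 ^ j := by positivity
      have a1 : (2 : ℝ) ^ (2 * j) ≤ X / 2 ^ j := by
        rw [le_div_iff₀ h2j, ← pow_add]
        calc (2 : ℝ) ^ (2 * j + j) = 2 ^ (3 * j) := by congr 1; ring
          _ ≤ X := hX
      have a2 : 2 * ((4 : ℝ) ^ ((2 * c + 4) * w ^ 56) + 1) ≤ 2 ^ j := by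
        have b1 : (1 : ℝ) ≤ 4 ^ ((2 * c + 4) * w ^ 56) := one_le_pow₀ (by norm_num)
        calc 2 * ((4 : ℝ) ^ ((2 * c + 4) * w ^ 56) + 1) ≤ 4 * 4 ^ ((2 * c + 4) * w ^ 56) := by linarith
          _ = 2 ^ (2 + 2 * ((2 * c + 4) * w ^ 56)) := by
            rw [pow_add, pow_mul 2 2 ((2 * c + 4) * w ^ 56)]; norm_num
          _ ≤ 2 ^ j := pow_le_pow_right₀ (by norm_num) (by omega)
      rw [div_mul_eq_mul_div, one_mul, le_div_iff₀ hw0]
      calc 2 * ((4 : ℝ) ^ ((2 * c + 4) * w ^ 56) + 1) * w ≤ 2 ^ j * 2 ^ j :=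
            mul_le_mul a2 hwj hw0.le (by positivity)
        _ = 2 ^ (2 * j) := by rw [← pow_add]; congr 1; ring
        _ ≤ X / 2 ^ j := a1)
  have hXj : 2 ^ j / X ≤ 1 / (w : ℝ) := by
    rw [div_le_div_iff₀ hX0 hw0, one_mul]
    calc (2 : ℝ) ^ j * w ≤ 2 ^ j * 2 ^ j := mul_le_mul_of_nonneg_left hwj (by positivity)
      _ = 2 ^ (j + j) := by rw [pow_add]
      _ ≤ 2 ^ (3 * j) := pow_le_pow_right₀ (by norm_num) (by omega)
      _ ≤ X := hX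
  have hDV' := hDV.trans hinv
  refine key.trans ?_
  have e9 : (8 * C₀ + 19) / w = 10 * (1 / w) + 2 * (1 / w) + 8 * (C₀ / w) + 2 * (1 / w) + 5 * (1 / (w : ℝ)) := by ring
  rw [e9]
  linarith

/-- (B1) -/
theorem t_G1P : S_DVR → S_LABR → S_G1P := by
  intro h1 h2
  obtain ⟨C, hC, h⟩ := stage_rateG h1 h2 1
  refine ⟨C, hC, ?_⟩
  filter_upwards [h] with w h j hj1 hj2 f g hf hg κ _ X hX D r hD hr
  refine h j hj1 hj2 f g hf hg κ X hX D r ⟨?_, ?_⟩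
  · simp only
    rw [abs_of_nonneg (by positivity), one_mul]
    exact_mod_cast hD
  · rw [one_mul]
    exact hr

end Pool.Agent.J4H94.PC
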