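import Mathlib
import Pool.Agent.J4H94.PC.G1p

set_option autoImplicit false

/-! Project PC, job B6: the ingredients. -/

namespace Pool.Agent.J4H94.PC

open Finset Filter Real
open Pool.Agent.J4H39 (T od ex pb ns rn stP stK lb GK GS Cm DV th0 Per id1 id1_pos id1_neg id1_nonneg id1_le_one par
  ex_mono ex_congr ex_add ex_mul ex_const)
open Pool.Agent.J4H26.PC
open Pool.Agent.J4H95.PC
open Pool.Agent.H499R2.CO (rho rho_nonneg rho_sq)

/-- the shift can be reset to `0` -/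
theorem reset {f g : ℤ → ℝ} (hf : Iv f) (hg : Iv g) (κ : ℝ) {X : ℝ} {k : ℕ} (hk : (2 : ℝ) ^ k ≤ X) (D : ℕ) (r : ℤ) :
    |cc f g κ X D r - cc f g κ X D 0| ≤ 6 * ns k (0, 0) + 6 * ns k (0, r) := by
  have hX1 : 1 ≤ X := le_trans (one_le_pow₀ (by norm_num)) hk
  have hX0 : 0 < X := by linarith
  unfold cc
  rw [max_eq_left hX1, ← sub_div, ← sum_sub_distrib, abs_div, abs_of_pos hX0, div_le_iff₀ hX0]
  refine (abs_sum_le_sum_abs _ _).trans ?_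
  have hpt : ∀ n ∈ Finset.Ico ⌈κ * X⌉ ⌈κ * X + X⌉, |f n * g (3 ^ D * n + r) - f n * g (3 ^ D * n + 0)| ≤
      2 * id1 (rn stP k (0, 0) n ≠ (0, 0)) + 2 * id1 (rn stP k (0, r) (3 ^ D * n) ≠ (0, 0)) := by
    intro n _
    have := pair_diff hf hg (Pool.Agent.J4H39.rel_zero 0 n) (Pool.Agent.J4H39.rel_zero r (3 ^ D * n)) k
    simp only [add_zero] at this ⊢
    exact this
  refine (sum_le_sum hpt).trans ?_
  rw [sum_add_distrib, ← mul_sum, ← mul_sum]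
  have p1 := bad_sum (κ := κ) (Pool.Agent.J4H39.per_ns k (0, 0)) hX1 hk
  have p2 := bad_sum (κ := κ) (per_mul (Pool.Agent.J4H39.per_ns k (0, r)) D) hX1 hk
  rw [pb_mul (Pool.Agent.J4H39.per_ns k (0, r)) D] at p2
  have e9 : (6 * ns k (0, 0) + 6 * ns k (0, r)) * X =
      2 * (3 * X * pb k (fun y => rn stP k (0, 0) y ≠ (0, 0))) +
      2 * (3 * X * pb k (fun y => rn stP k (0, r) y ≠ (0, 0))) := by
    have : ∀ s, ns k s = pb k (fun y => rn stP k s y ≠ (0, 0)) := fun s => rfl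
    rw [this, this]; ring
  rw [e9]
  linarith

theorem drift2 {j : ℕ} (hj : 1 ≤ j) (s : ℤ × ℤ) (δ : ℕ) :
    pb j (fun y => ¬ (|(rn stP j s y).1 - s.1| ≤ δ)) ≤ 4 * Real.exp (-((δ : ℝ) ^ 2 / (2 * j))) := by
  have hP : Per j (fun y => ¬ (|(rn stP j s y).1 - s.1| ≤ δ)) := by
    intro x u
    simp only
    rw [Pool.Agent.J4H39.per_rn stP s (le_refl j) x u]
  have hQ : Per j (fun y => (δ : ℝ) ≤ |2 * (od j y : ℝ) - j|) := by
    intro x u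
    simp only
    rw [Pool.Agent.J4H39.per_od (le_refl j) x u]
  have h1 := Pool.Agent.J4H39.pb_repr (s := s) hP hQ (by
    intro y y' hrel hPy hq
    by_contra hq'
    apply hPy
    push Not at hq hq'
    rw [(Pool.Agent.J4H39.rel_rn hrel j).2]
    rw [abs_lt] at hq hq'
    have h3 : -(δ : ℝ) < (od j y' : ℝ) - od j y := by linarith [hq.1, hq.2, hq'.1, hq'.2]
    have h3' : (od j y' : ℝ) - od j y < (δ : ℝ) := by linarith [hq.1, hq.2, hq'.1, hq'.2]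
    have h4 : -(δ : ℤ) < (od j y' : ℤ) - od j y := by exact_mod_cast h3
    have h4' : (od j y' : ℤ) - od j y < (δ : ℤ) := by exact_mod_cast h3'
    rw [abs_le]
    constructor <;> omega)
  have h2 := Pool.Agent.J4H39.pb_od hj (δ := (δ : ℝ)) (by positivity)
  linarith

/-- the shifts reached are bounded -/
theorem lab_bd {ε : ℝ} (hε : 0 < ε) : ∀ᶠ v : ℕ in atTop, ∀ t, v ^ 94 ≤ t → t ≤ 15 * v ^ 95 → ∀ D : ℕ, D ≤ v ^ 48 →
    pb t (fun y => ¬ (|(rn stP t ((D : ℤ), 0) y).2| ≤ 4 ^ (6 * v ^ 70))) ≤ ε := by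
  obtain ⟨z₀, hz₀⟩ := eventually_atTop.1 (Pool.Agent.J4H39.t_LAB 1 1 ε hε)
  filter_upwards [eventually_ge_atTop 40, eventually_ge_atTop z₀] with v h40 hv t ht1 ht2 D hD
  obtain ⟨z, hz1, hz2⟩ := Pool.Agent.J4H39.root20 t
  have hv1 : 1 ≤ v := by omega
  have hzv : v ^ 4 ≤ z := by
    by_contra hcon
    have h1 : z + 1 ≤ v ^ 4 := by omega
    have h2 : (z + 1) ^ 20 ≤ v ^ 80 := by
      calc (z + 1) ^ 20 ≤ (v ^ 4) ^ 20 := Nat.pow_le_pow_left h1 20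
        _ = v ^ 80 := by ring
    have h3 : v ^ 80 ≤ v ^ 94 := Nat.pow_le_pow_right hv1 (by norm_num)
    omega
  have hzv2 : z ≤ v ^ 5 := by
    by_contra hcon
    have h1 : v ^ 5 ≤ z := by omega
    have h2 : v ^ 100 ≤ z ^ 20 := by
      calc v ^ 100 = (v ^ 5) ^ 20 := by ring
        _ ≤ z ^ 20 := Nat.pow_le_pow_left h1 20
    have h3 : 40 * v ^ 95 ≤ v ^ 100 := by
      calc 40 * v ^ 95 ≤ v * v ^ 95 := Nat.mul_le_mul_right _ h40
        _ = v ^ 96 := by ring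
        _ ≤ v ^ 100 := Nat.pow_le_pow_right hv1 (by norm_num)
    have h4 : 1 ≤ v ^ 95 := Nat.one_le_pow _ _ hv1
    omega
  have hvz : v ≤ z := le_trans (Nat.le_self_pow (by norm_num) v) hzv
  have h2z : t ≤ 2 * z ^ 20 := by
    have := Pool.Agent.J4H39.succ20 (show 40 ≤ z by omega)
    omega
  have h12 : v ^ 48 ≤ z ^ 12 := by
    calc v ^ 48 = (v ^ 4) ^ 12 := by ring
      _ ≤ z ^ 12 := Nat.pow_le_pow_left hzv 12
  have h14 : z ^ 14 ≤ v ^ 70 := by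
    calc z ^ 14 ≤ (v ^ 5) ^ 14 := Nat.pow_le_pow_left hzv2 14
      _ = v ^ 70 := by ring
  have hDz : ((D : ℤ)) ≤ ((1 * z ^ 12 : ℕ) : ℤ) := by
    have : D ≤ 1 * z ^ 12 := by rw [one_mul]; exact hD.trans h12
    exact_mod_cast this
  have hDa : |(D : ℤ)| ≤ ((1 * z ^ 12 : ℕ) : ℤ) := by
    rw [abs_of_nonneg (Int.natCast_nonneg D)]
    exact hDz
  have h0a : |(0 : ℤ)| ≤ 4 ^ (1 * z ^ 14) := by
    rw [abs_zero]
    exact pow_nonneg (by norm_num) _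
  have hG : GK (1 * z ^ 12) (1 * z ^ 14) (fun _ : Fin 1 => ((D : ℤ), (0 : ℤ))) := fun _ => ⟨hDa, h0a⟩
  have key := hz₀ z (hv.trans hvz) t hz1 h2z (fun _ : Fin 1 => ((D : ℤ), (0 : ℤ))) hG
  refine le_trans (Pool.Agent.J4H39.pb_mono ?_) key
  intro y hy hy'
  apply hy
  have := (hy'.2 0).2
  rw [Pool.Agent.J4H39.rn_stK_apply] at this
  refine this.trans (pow_le_pow_right₀ (by norm_num) ?_)
  omega

theorem far_rate {δ : ℝ} (hδ : 0 < δ) : ∀ᶠ v : ℕ in atTop, ∀ r : ℤ, |r| ≤ 4 ^ (6 * v ^ 70) → ns (v ^ 80) (0, r) ≤ δ := by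
  obtain ⟨C, hC, h⟩ := Pool.Agent.J4H39.ns_rate
  filter_upwards [eventually_ge_atTop 1, eventually_ge_atTop ⌈27 * C / δ⌉₊] with v hv hv2 r hr
  have hv1 : (1 : ℝ) ≤ v := by exact_mod_cast hv
  have hv0 : (0 : ℝ) < v := by linarith
  have h3 : 27 * C / δ ≤ v := (Nat.le_ceil _).trans (by exact_mod_cast hv2)
  rw [div_le_iff₀ hδ] at h3
  have a3 := h (v ^ 80) (Nat.one_le_pow _ _ hv) 0 _ r (by exact_mod_cast hr)
  have a2 := Pool.Agent.J4H95.PC.rho_le (w := v) hv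
  have hsq : √ (1 + ((0 : ℤ) : ℝ) ^ 2 + ((6 * v ^ 70 : ℕ) : ℝ)) ≤ 3 * (v : ℝ) ^ 35 := by
    rw [Real.sqrt_le_left (by positivity)]
    have b2 : (1 : ℝ) ≤ (v : ℝ) ^ 70 := one_le_pow₀ hv1
    push_cast
    calc 1 + (0 : ℝ) ^ 2 + 6 * (v : ℝ) ^ 70 ≤ 9 * (v : ℝ) ^ 70 := by linarith
      _ = (3 * (v : ℝ) ^ 35) ^ 2 := by ring
  calc ns (v ^ 80) (0, r) ≤ C * √ (1 + ((0 : ℤ) : ℝ) ^ 2 + ((6 * v ^ 70 : ℕ) : ℝ)) * rho (v ^ 80) := a3
    _ ≤ C * (3 * (v : ℝ) ^ 35) * (9 / (v : ℝ) ^ 39) :=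
        mul_le_mul (mul_le_mul_of_nonneg_left hsq hC.le) a2 (rho_nonneg _) (by positivity)
    _ = 27 * C / (v : ℝ) ^ 4 := by field_simp; ring
    _ ≤ 27 * C / v := by
      apply div_le_div_of_nonneg_left (by positivity) hv0
      exact le_self_pow₀ hv1 (by norm_num)
    _ ≤ δ := by rw [div_le_iff₀ hv0]; linarith

theorem near_rate {η : ℝ} (hη : 0 < η) : ∀ᶠ v : ℕ in atTop, ∀ t : ℕ, (v : ℝ) ^ 94 * √v ≤ t → t ≤ 15 * v ^ 95 →
    ∀ D : ℤ, |D| ≤ v ^ 47 → ∀ r : ℤ, |r| ≤ 4 ^ (6 * v ^ 70) → ns ⌊η * t⌋₊ (D, r) ≤ 1 / 2 := by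
  obtain ⟨C, hC, h⟩ := Pool.Agent.J4H39.ns_rate
  have hlog := (isLittleO_log_rpow_atTop (r := 1 / 2) (by norm_num)).bound
    (show (0 : ℝ) < η / (6208 * C ^ 2) by positivity)
  have hlog' := (tendsto_natCast_atTop_atTop (R := ℝ)).eventually hlog
  filter_upwards [hlog', eventually_ge_atTop 2, eventually_ge_atTop ⌈15 * η⌉₊, eventually_ge_atTop ⌈2 / η⌉₊]
    with v e1 hv hv2 hv3 t ht1 ht2 D hD r hr
  have hv1 : (1 : ℝ) ≤ v := by exact_mod_cast (by omega : 1 ≤ v)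
  have hv0 : (0 : ℝ) < v := by linarith
  have h15 : 15 * η ≤ v := (Nat.le_ceil _).trans (by exact_mod_cast hv2)
  have h2η : 2 / η ≤ v := (Nat.le_ceil _).trans (by exact_mod_cast hv3)
  rw [div_le_iff₀ hη] at h2η
  have hsv1 : 1 ≤ √(v : ℝ) := by rw [Real.one_le_sqrt]; exact hv1
  have hvt : (v : ℝ) ≤ t := by
    have a1 : (v : ℝ) ≤ (v : ℝ) ^ 94 := le_self_pow₀ hv1 (by norm_num)
    have a2 : (v : ℝ) ^ 94 * 1 ≤ (v : ℝ) ^ 94 * √v := mul_le_mul_of_nonneg_left hsv1 (by positivity)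
    linarith
  have ht0 : (0 : ℝ) < t := by linarith
  have h2t : 2 ≤ η * t := by
    have : v * η ≤ t * η := mul_le_mul_of_nonneg_right hvt hη.le
    linarith
  obtain ⟨k, hk⟩ : ∃ k, k = ⌊η * t⌋₊ := ⟨_, rfl⟩
  rw [← hk]
  have k1 : (k : ℝ) ≤ η * t := by rw [hk]; exact Nat.floor_le (by positivity)
  have k2 : η * t < k + 1 := by rw [hk]; exact Nat.lt_floor_add_one _
  have k3 : η * t / 2 ≤ k := by linarith
  have hk0 : (0 : ℝ) < k := by linarith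
  have hk1 : 1 ≤ k := by
    have : (0 : ℝ) < k := hk0
    exact_mod_cast this
  have ht2' : (t : ℝ) ≤ 15 * (v : ℝ) ^ 95 := by exact_mod_cast ht2
  have hlogk : Real.log (k + 1) ≤ 97 * Real.log v := by
    have a1 : (k : ℝ) + 1 ≤ (v : ℝ) ^ 97 := by
      have b1 : η * t ≤ η * (15 * (v : ℝ) ^ 95) := mul_le_mul_of_nonneg_left ht2' hη.le
      have b2 : (15 * η) * (v : ℝ) ^ 95 ≤ v * (v : ℝ) ^ 95 := mul_le_mul_of_nonneg_right h15 (by positivity)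
      have b3 : (v : ℝ) * (v : ℝ) ^ 95 = (v : ℝ) ^ 96 := by ring
      have b4 : (2 : ℝ) ≤ v := by exact_mod_cast hv
      have b5 : (1 : ℝ) ≤ (v : ℝ) ^ 96 := one_le_pow₀ hv1
      have b6 : 2 * (v : ℝ) ^ 96 ≤ v * (v : ℝ) ^ 96 := mul_le_mul_of_nonneg_right b4 (by positivity)
      have b7 : (v : ℝ) * (v : ℝ) ^ 96 = (v : ℝ) ^ 97 := by ring
      linarith
    calc Real.log (k + 1) ≤ Real.log ((v : ℝ) ^ 97) := Real.log_le_log (by positivity) a1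
      _ = 97 * Real.log v := by rw [Real.log_pow]; push_cast; ring
  have hlogv : Real.log v ≤ η / (6208 * C ^ 2) * √v := by
    have a1 : Real.log v ≤ ‖Real.log v‖ := Real.le_norm_self _
    have a2 : ‖(v : ℝ) ^ (1 / 2 : ℝ)‖ = √v := by
      rw [Real.norm_of_nonneg (by positivity), Real.sqrt_eq_rpow]
    rw [a2] at e1
    exact a1.trans e1
  have a3 := h k hk1 D _ r (by exact_mod_cast hr)
  refine a3.trans ?_
  have hA : 1 + (D : ℝ) ^ 2 + ((6 * v ^ 70 : ℕ) : ℝ) ≤ 8 * (v : ℝ) ^ 94 := by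
    have b1 : |(D : ℝ)| ≤ (v : ℝ) ^ 47 := by exact_mod_cast hD
    have b2 : (D : ℝ) ^ 2 ≤ ((v : ℝ) ^ 47) ^ 2 := by
      rw [← sq_abs]
      exact pow_le_pow_left₀ (abs_nonneg _) b1 2
    have b3 : ((v : ℝ) ^ 47) ^ 2 = (v : ℝ) ^ 94 := by ring
    have b4 : (1 : ℝ) ≤ (v : ℝ) ^ 94 := one_le_pow₀ hv1
    have b5 : (v : ℝ) ^ 70 ≤ (v : ℝ) ^ 94 := pow_le_pow_right₀ hv1 (by norm_num)
    push_cast
    linarith
  have hx0 : 0 ≤ C * √ (1 + (D : ℝ) ^ 2 + ((6 * v ^ 70 : ℕ) : ℝ)) * rho k :=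
    mul_nonneg (by positivity) (rho_nonneg k)
  have hsq : (C * √ (1 + (D : ℝ) ^ 2 + ((6 * v ^ 70 : ℕ) : ℝ)) * rho k) ^ 2 ≤ (1 / 2) ^ 2 := by
    rw [mul_pow, mul_pow, Real.sq_sqrt (by positivity), rho_sq hk1]
    have c1 : Real.log (k + 1) / k ≤ (97 * (η / (6208 * C ^ 2) * √v)) / (η * ((v : ℝ) ^ 94 * √v) / 2) := by
      apply div_le_div₀
      · have : 0 ≤ √(v : ℝ) := Real.sqrt_nonneg _
        positivity
      · linarith
      · have : 0 < √(v : ℝ) := by linarith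
        positivity
      · have : η * ((v : ℝ) ^ 94 * √v) ≤ η * t := mul_le_mul_of_nonneg_left ht1 hη.le
        linarith
    have hsv0 : (0 : ℝ) < √(v : ℝ) := by linarith
    have c2 : (97 * (η / (6208 * C ^ 2) * √(v : ℝ))) / (η * ((v : ℝ) ^ 94 * √v) / 2) = 1 / (32 * C ^ 2 * (v : ℝ) ^ 94) := by
      field_simp
      ring
    rw [c2] at c1
    have hlk : 0 ≤ Real.log (k + 1) / k := by
      apply div_nonneg _ hk0.le
      apply Real.log_nonneg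
      linarith
    calc C ^ 2 * (1 + (D : ℝ) ^ 2 + ((6 * v ^ 70 : ℕ) : ℝ)) * (Real.log (k + 1) / k) ≤
        C ^ 2 * (8 * (v : ℝ) ^ 94) * (1 / (32 * C ^ 2 * (v : ℝ) ^ 94)) :=
          mul_le_mul (mul_le_mul_of_nonneg_left hA (by positivity)) c1 hlk (by positivity)
      _ = (1 / 2) ^ 2 := by field_simp; norm_num
  exact (pow_le_pow_iff_left₀ hx0 (by norm_num) (by norm_num)).1 hsq

theorem dev_small {ε : ℝ} (hε : 0 < ε) : ∀ᶠ v : ℕ in atTop, ∀ t : ℕ, 1 ≤ t → t ≤ 15 * v ^ 95 →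
    2 * Real.exp (-(((v : ℝ) ^ 48) ^ 2 / (2 * t))) + 4 * Real.exp (-((((v ^ 48 / 4 : ℕ)) : ℝ) ^ 2 / (2 * t))) ≤ ε := by
  filter_upwards [eventually_ge_atTop 2, eventually_ge_atTop ⌈11520 / ε⌉₊] with v hv hv2 t ht1 ht2
  have hv1 : (1 : ℝ) ≤ v := by exact_mod_cast (by omega : 1 ≤ v)
  have hv0 : (0 : ℝ) < v := by linarith
  have h3 : 11520 / ε ≤ v := (Nat.le_ceil _).trans (by exact_mod_cast hv2)
  rw [div_le_iff₀ hε] at h3
  have ht0 : (0 : ℝ) < t := by exact_mod_cast ht1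
  have ht2' : (t : ℝ) ≤ 15 * (v : ℝ) ^ 95 := by exact_mod_cast ht2
  have h8 : 8 ≤ v ^ 48 := by
    calc 8 = 2 ^ 3 := by norm_num
      _ ≤ v ^ 3 := Nat.pow_le_pow_left hv 3
      _ ≤ v ^ 48 := Nat.pow_le_pow_right (by omega) (by norm_num)
  have hδ : (v : ℝ) ^ 48 / 8 ≤ ((v ^ 48 / 4 : ℕ) : ℝ) := by
    have : v ^ 48 ≤ 8 * (v ^ 48 / 4) := by omega
    have : ((v ^ 48 : ℕ) : ℝ) ≤ 8 * ((v ^ 48 / 4 : ℕ) : ℝ) := by exact_mod_cast this
    push_cast at this ⊢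
    linarith
  have hkey : ∀ a : ℝ, (v : ℝ) ^ 48 / 8 ≤ a → Real.exp (-(a ^ 2 / (2 * t))) ≤ 1920 / v := by
    intro a ha
    have a1 : (v : ℝ) / 1920 ≤ a ^ 2 / (2 * t) := by
      rw [div_le_div_iff₀ (by norm_num) (by positivity)]
      have b1 : ((v : ℝ) ^ 48 / 8) ^ 2 ≤ a ^ 2 := pow_le_pow_left₀ (by positivity) ha 2
      calc (v : ℝ) * (2 * t) ≤ v * (2 * (15 * (v : ℝ) ^ 95)) := by gcongr
        _ = ((v : ℝ) ^ 48 / 8) ^ 2 * 1920 := by ring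
        _ ≤ a ^ 2 * 1920 := by linarith
    have a2 : Real.exp (-(a ^ 2 / (2 * t))) ≤ Real.exp (-(v / 1920)) := Real.exp_le_exp.2 (by linarith)
    have a3 : Real.exp (-((v : ℝ) / 1920)) ≤ 1920 / v := by
      rw [Real.exp_neg, ← one_div, div_le_div_iff₀ (Real.exp_pos _) hv0]
      have := Real.add_one_le_exp ((v : ℝ) / 1920)
      linarith
    linarith
  have g1 := hkey ((v : ℝ) ^ 48) (by have : (0 : ℝ) ≤ (v : ℝ) ^ 48 := by positivity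
                                     linarith)
  have g2 := hkey _ hδ
  have g3 : 6 * (1920 / (v : ℝ)) ≤ ε := by
    have : 6 * (1920 / (v : ℝ)) = 11520 / v := by ring
    rw [this, div_le_iff₀ hv0]
    linarith
  linarith

theorem logX {X : ℝ} (hX : 0 < X) (o t : ℕ) :
    logb 2 (3 ^ o * X / 2 ^ t) = logb 2 X - th0 * t + (1 - th0) * (2 * o - t) := by
  have hl2 : 0 < Real.log 2 := Real.log_pos (by norm_num)
  unfold Real.logb
  rw [Real.log_div (by positivity) (by positivity), Real.log_mul (by positivity) hX.ne', Real.log_pow, Real.log_pow,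
    Pool.Agent.J4H39.th0_log3]
  field_simp
  ring

end Pool.Agent.J4H94.PC
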