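import Mathlib
import Pool.Agent.J4H94.PC.Corr1

set_option autoImplicit false

/-! Project PC, job B6: `S_CORR`, the correlation along forms is the probability of merging. -/

namespace Pool.Agent.J4H94.PC

open Finset Filter Real
open Pool.Agent.J4H39 (T od ex pb ns rn stP stK lb GK GS Cm DV th0 Per id1 id1_pos id1_neg id1_nonneg id1_le_one par
  ex_mono ex_congr ex_add ex_mul ex_const)
open Pool.Agent.J4H26.PC
open Pool.Agent.J4H95.PC

theorem logb_div3 {X : ℝ} (hX : 0 < X) (d : ℕ) : logb 2 (X / 3 ^ d) = logb 2 X - 2 * (1 - th0) * d := by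
  have hl2 : 0 < Real.log 2 := Real.log_pos (by norm_num)
  unfold Real.logb
  rw [Real.log_div hX.ne' (by positivity), Real.log_pow, Pool.Agent.J4H39.th0_log3]
  field_simp

/-- far from the diagonal -/
theorem far (hU : S_UNM) (ψ : ℝ → ℝ) (hψ : Tendsto ψ atTop (nhds 0)) {ε : ℝ} (hε : 0 < ε) : ∀ᶠ v : ℕ in atTop,
    ∀ (f : ℤ → ℝ) (κ q : ℝ), Cent ψ f κ q → ∀ X : ℝ, 0 < X → 8 * (v : ℝ) ^ 88 ≤ logb 2 X → logb 2 X ≤ 13 * (v : ℝ) ^ 88 →
    ∀ s : ℤ × ℤ, (v : ℤ) ^ 47 ≤ |s.1| → 2 * |s.1| ≤ (v : ℤ) ^ 48 → |s.2| ≤ 4 ^ (6 * v ^ 70) → |cg f f κ X s| ≤ ε := by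
  filter_upwards [hU ψ hψ (ε / 2) (by positivity), far_rate (δ := ε / 24) (by positivity), eventually_ge_atTop 2]
    with v h1 h2 hv f κ q hc X hX hX1 hX2 s hs1 hs2 hs3
  have hv1 : (1 : ℝ) ≤ v := by exact_mod_cast (by omega : 1 ≤ v)
  have hv0 : (0 : ℝ) < v := by linarith
  have hth := Pool.Agent.J4H39.th0_gt
  have hth1 := Pool.Agent.J4H39.th0_lt
  have key : ∀ (X : ℝ), 0 < X → 7 * (v : ℝ) ^ 88 ≤ logb 2 X → logb 2 X ≤ 14 * (v : ℝ) ^ 88 → ∀ (D : ℕ) (r : ℤ),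
      v ^ 47 ≤ D → 2 * D ≤ v ^ 48 → |r| ≤ 4 ^ (6 * v ^ 70) → |cc f f κ X D r| ≤ ε := by
    intro X hX hX1 hX2 D r hD1 hD2 hr
    have a1 := h1 f κ q hc X hX hX1 hX2 D hD1 hD2
    have hk : (2 : ℝ) ^ (v ^ 80) ≤ X := by
      have b1 : ((v ^ 80 : ℕ) : ℝ) ≤ logb 2 X := by
        have b2 : (v : ℝ) ^ 80 ≤ (v : ℝ) ^ 88 := pow_le_pow_right₀ hv1 (by norm_num)
        have b3 : (0 : ℝ) ≤ (v : ℝ) ^ 88 := by positivity
        push_cast
        linarith
      rw [Real.le_logb_iff_rpow_le (by norm_num) hX, Real.rpow_natCast] at b1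
      exact b1
    have a2 := reset hc.iv hc.iv κ hk D r
    have a3 := h2 0 (by rw [abs_zero]; exact pow_nonneg (by norm_num) _)
    have a4 := h2 r hr
    have a5 := abs_sub_abs_le_abs_sub (cc f f κ X D r) (cc f f κ X D 0)
    linarith
  have hb88 : (v : ℝ) ^ 48 ≤ (v : ℝ) ^ 88 := pow_le_pow_right₀ hv1 (by norm_num)
  unfold cg
  split_ifs with hsg
  · obtain ⟨d, hd⟩ := Int.eq_ofNat_of_zero_le hsg
    rw [hd, abs_of_nonneg (Int.natCast_nonneg d)] at hs1 hs2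
    rw [hd, Int.toNat_natCast]
    refine key X hX ?_ ?_ d s.2 (by exact_mod_cast hs1) (by exact_mod_cast hs2) hs3
    · have : (0 : ℝ) ≤ (v : ℝ) ^ 88 := by positivity
      linarith
    · have : (0 : ℝ) ≤ (v : ℝ) ^ 88 := by positivity
      linarith
  · obtain ⟨d, hd⟩ := Int.eq_ofNat_of_zero_le (show 0 ≤ -s.1 by omega)
    have hd' : s.1 = -(d : ℤ) := by omega
    rw [hd', abs_neg, abs_of_nonneg (Int.natCast_nonneg d)] at hs1 hs2
    rw [hd, Int.toNat_natCast]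
    have hdv : (2 : ℝ) * d ≤ (v : ℝ) ^ 48 := by exact_mod_cast hs2
    have hlog := logb_div3 hX d
    have e1 : 2 * (1 - th0) * (d : ℝ) ≤ 2 * d := by
      have : (0 : ℝ) ≤ d := by positivity
      nlinarith
    have e2 : 0 ≤ 2 * (1 - th0) * (d : ℝ) := by
      have : (0 : ℝ) ≤ d := by positivity
      have : (0 : ℝ) ≤ 1 - th0 := by linarith
      positivity
    refine key (X / 3 ^ d) (by positivity) ?_ ?_ d (-s.2) (by exact_mod_cast hs1) (by exact_mod_cast hs2)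
      (by rw [abs_neg]; exact hs3)
    · rw [hlog]
      linarith
    · rw [hlog]
      have : (0 : ℝ) ≤ (v : ℝ) ^ 88 := by positivity
      linarith

/-- (B6) -/
theorem t_CORR : S_GT → S_UNM → S_CORR := by
  intro hG hU ψ hψ ε η hε hη
  obtain ⟨C, hC, hG⟩ := hG
  have hψ' : ∀ᶠ X : ℝ in atTop, ψ X ≤ ε / 8 := by
    have := hψ.eventually (gt_mem_nhds (show (0 : ℝ) < ε / 8 by positivity))
    filter_upwards [this] with X hX using hX.le
  obtain ⟨K, hK⟩ := eventually_atTop.1 hψ'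
  have hKv : ∀ᶠ v : ℕ in atTop, max K 2 ≤ (2 : ℝ) ^ ((1 : ℝ) * v) := Pool.Agent.J4H39.exp_beats (max K 2) one_pos
  filter_upwards [hG, far hU ψ hψ (ε := ε / 8) (by positivity), lab_bd (ε := ε / 12) (by positivity), near_rate hη,
    dev_small (ε := ε / 12) (by positivity), hKv, eventually_ge_atTop 100, eventually_ge_atTop ⌈(4 * C / ε) ^ 2⌉₊]
    with v hGv hfar hlab hnear hdev hKv hv hvC X hX hX1 hX2
  have hv1 : (1 : ℝ) ≤ v := by exact_mod_cast (by omega : 1 ≤ v)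
  have hv100 : (100 : ℝ) ≤ v := by exact_mod_cast hv
  have hv0 : (0 : ℝ) < v := by linarith
  have hsv1 : 1 ≤ √(v : ℝ) := by rw [Real.one_le_sqrt]; exact hv1
  have hth := Pool.Agent.J4H39.th0_gt
  have hth1 := Pool.Agent.J4H39.th0_lt
  have h94 : (0 : ℝ) < (v : ℝ) ^ 94 := by positivity
  have h88 : (0 : ℝ) < (v : ℝ) ^ 88 := by positivity
  have hX1' : (v : ℝ) ^ 94 ≤ logb 2 X := by
    have : (v : ℝ) ^ 94 * 1 ≤ (v : ℝ) ^ 94 * √v := mul_le_mul_of_nonneg_left hsv1 h94.le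
    linarith
  obtain ⟨t, ht1, ht2, hcc⟩ := hGv X hX hX1' hX2
  refine ⟨t, ht1, ht2, ?_⟩
  intro f κ q hc D hD
  -- the size of t
  have ht0 : (0 : ℝ) ≤ t := by positivity
  have h9488 : 100 * (v : ℝ) ^ 88 ≤ (v : ℝ) ^ 94 := by
    calc 100 * (v : ℝ) ^ 88 ≤ v * (v : ℝ) ^ 88 := mul_le_mul_of_nonneg_right hv100 h88.le
      _ = (v : ℝ) ^ 89 := by ring
      _ ≤ (v : ℝ) ^ 94 := pow_le_pow_right₀ hv1 (by norm_num)
  have htlow : (v : ℝ) ^ 94 * √v ≤ t := by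
    have a1 : (v : ℝ) ^ 94 * √v - 12 * (v : ℝ) ^ 88 ≤ th0 * t := by linarith
    have a2 : th0 * t ≤ 1 / 4 * t := mul_le_mul_of_nonneg_right hth1.le ht0
    have a3 : (v : ℝ) ^ 94 * 1 ≤ (v : ℝ) ^ 94 * √v := mul_le_mul_of_nonneg_left hsv1 h94.le
    linarith
  have htup : (t : ℝ) ≤ 15 * (v : ℝ) ^ 95 := by
    have a1 : th0 * t ≤ 3 * (v : ℝ) ^ 95 := by linarith
    have a2 : 1 / 5 * (t : ℝ) ≤ th0 * t := mul_le_mul_of_nonneg_right hth.le ht0
    linarith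
  have htupN : t ≤ 15 * v ^ 95 := by exact_mod_cast htup
  have htlowN : v ^ 94 ≤ t := by
    have : (v : ℝ) ^ 94 * 1 ≤ (v : ℝ) ^ 94 * √v := mul_le_mul_of_nonneg_left hsv1 h94.le
    have : (v : ℝ) ^ 94 ≤ t := by linarith
    exact_mod_cast this
  have ht1N : 1 ≤ t := le_trans (Nat.one_le_pow _ _ (by omega)) htlowN
  have hDv : D ≤ v ^ 48 := by omega
  have hcc := hcc f f hc.iv hc.iv κ hc.kp D hD
  have hlab := hlab t htlowN htupN D hDv
  have hnear := hnear t htlow htupN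
  have hdev := hdev t ht1N htupN
  obtain ⟨k', hk'⟩ : ∃ k', k' = ⌊η * t⌋₊ := ⟨_, rfl⟩
  rw [← hk'] at hnear ⊢
  -- the good event
  obtain ⟨G, hGd⟩ : ∃ G : ℤ → Prop, G = fun y => |2 * (od t y : ℝ) - t| ≤ (v : ℝ) ^ 48 ∧
    |(rn stP t ((D : ℤ), 0) y).1 - ((D : ℤ), (0 : ℤ)).1| ≤ ((v ^ 48 / 4 : ℕ) : ℤ) ∧
    |(rn stP t ((D : ℤ), 0) y).2| ≤ 4 ^ (6 * v ^ 70) := ⟨_, rfl⟩
  have hpG : pb t (fun y => ¬ G y) ≤ ε / 6 := by
    have b1 : pb t (fun y => ¬ G y) ≤ pb t (fun y => (v : ℝ) ^ 48 ≤ |2 * (od t y : ℝ) - t| ∨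
        (¬ (|(rn stP t ((D : ℤ), 0) y).1 - ((D : ℤ), (0 : ℤ)).1| ≤ ((v ^ 48 / 4 : ℕ) : ℤ)) ∨
        ¬ (|(rn stP t ((D : ℤ), 0) y).2| ≤ 4 ^ (6 * v ^ 70)))) := by
      apply Pool.Agent.J4H39.pb_mono
      intro y hy
      by_contra hcon
      rw [not_or, not_or, not_not, not_not, not_le] at hcon
      apply hy
      rw [hGd]
      exact ⟨hcon.1.le, hcon.2.1, hcon.2.2⟩
    have b2 := Pool.Agent.J4H39.pb_or t (fun y => (v : ℝ) ^ 48 ≤ |2 * (od t y : ℝ) - t|)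
      (fun y => (¬ (|(rn stP t ((D : ℤ), 0) y).1 - ((D : ℤ), (0 : ℤ)).1| ≤ ((v ^ 48 / 4 : ℕ) : ℤ)) ∨
        ¬ (|(rn stP t ((D : ℤ), 0) y).2| ≤ 4 ^ (6 * v ^ 70))))
    have b3 := Pool.Agent.J4H39.pb_or t
      (fun y => ¬ (|(rn stP t ((D : ℤ), 0) y).1 - ((D : ℤ), (0 : ℤ)).1| ≤ ((v ^ 48 / 4 : ℕ) : ℤ)))
      (fun y => ¬ (|(rn stP t ((D : ℤ), 0) y).2| ≤ 4 ^ (6 * v ^ 70)))
    have b4 := Pool.Agent.J4H39.pb_od ht1N (δ := (v : ℝ) ^ 48) (by positivity)
    have b5 := drift2 ht1N ((D : ℤ), 0) (v ^ 48 / 4)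
    linarith
  -- pointwise
  obtain ⟨F, hF⟩ : ∃ F : ℤ → ℝ, F = fun y => cg f f κ (3 ^ od t y * X / 2 ^ t) (rn stP t ((D : ℤ), 0) y) := ⟨_, rfl⟩
  obtain ⟨W, hW⟩ : ∃ W : ℤ → ℝ, W = fun y => id1 (rn stP t ((D : ℤ), 0) y ≠ (0, 0)) + (-1) *
    ns k' (rn stP t ((D : ℤ), 0) y) := ⟨_, rfl⟩
  have hns0 : ns k' (0, 0) = 0 := by
    have e1 : ∀ y : ℤ, (if rn stP k' (0, 0) y ≠ (0, 0) then (1 : ℝ) else 0) = 0 := by
      intro y
      rw [Pool.Agent.J4H39.rn_zero]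
      simp
    have e2 : ns k' (0, 0) = ex k' (fun y => if rn stP k' (0, 0) y ≠ (0, 0) then (1 : ℝ) else 0) := by
      unfold Pool.Agent.J4H39.ns Pool.Agent.J4H39.pb
      apply ex_congr
      intro y
      split_ifs <;> rfl
    rw [e2, ex_congr e1, ex_const]
  have hW0 : ∀ y, 0 ≤ W y := by
    intro y
    rw [hW]
    simp only
    by_cases hz : rn stP t ((D : ℤ), 0) y = (0, 0)
    · rw [hz, hns0, id1_neg (fun h => h rfl)]
      norm_num
    · rw [id1_pos hz]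
      have := Pool.Agent.J4H39.ns_le_one k' (rn stP t ((D : ℤ), 0) y)
      linarith
  have hpt : ∀ y, |F y - q * id1 (rn stP t ((D : ℤ), 0) y = (0, 0))| ≤ ε / 8 + 3 * id1 (¬ G y) + 4 * W y := by
    intro y
    obtain ⟨s, hs⟩ : ∃ s, s = rn stP t ((D : ℤ), 0) y := ⟨_, rfl⟩
    have hX'0 : 0 < 3 ^ od t y * X / 2 ^ t := by positivity
    by_cases hGy : G y
    · rw [id1_neg (P := ¬ G y) (fun h => h hGy), mul_zero, add_zero]
      rw [hGd] at hGy
      obtain ⟨g1, g2, g3⟩ := hGy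
      have hlog := logX hX (od t y) t
      have hdv : |(1 - th0) * (2 * (od t y : ℝ) - t)| ≤ (v : ℝ) ^ 48 := by
        rw [abs_mul, abs_of_pos (by linarith : 0 < 1 - th0)]
        calc (1 - th0) * |2 * (od t y : ℝ) - t| ≤ 1 * |2 * (od t y : ℝ) - t| :=
              mul_le_mul_of_nonneg_right (by linarith) (abs_nonneg _)
          _ ≤ (v : ℝ) ^ 48 := by rw [one_mul]; exact g1
      rw [abs_le] at hdv
      have hb88 : (v : ℝ) ^ 48 ≤ (v : ℝ) ^ 88 := pow_le_pow_right₀ hv1 (by norm_num)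
      have hX'1 : 8 * (v : ℝ) ^ 88 ≤ logb 2 (3 ^ od t y * X / 2 ^ t) := by
        rw [hlog]; linarith [hdv.1]
      have hX'2 : logb 2 (3 ^ od t y * X / 2 ^ t) ≤ 13 * (v : ℝ) ^ 88 := by
        rw [hlog]; linarith [hdv.2]
      by_cases hz : s = (0, 0)
      · -- merged
        have hz' : rn stP t ((D : ℤ), 0) y = (0, 0) := by rw [← hs]; exact hz
        rw [id1_pos hz', mul_one, hF]
        simp only
        rw [hz']
        have hW' := hW0 y
        have e1 : cg f f κ (3 ^ od t y * X / 2 ^ t) (0, 0) = cc f f κ (3 ^ od t y * X / 2 ^ t) 0 0 := by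
          unfold cg
          simp
        rw [e1]
        have hK2 : max K 2 ≤ 3 ^ od t y * X / 2 ^ t := by
          refine hKv.trans ?_
          rw [one_mul]
          have a1 : (v : ℝ) ≤ logb 2 (3 ^ od t y * X / 2 ^ t) := by
            have : (v : ℝ) ≤ (v : ℝ) ^ 88 := le_self_pow₀ hv1 (by norm_num)
            linarith
          rwa [Real.le_logb_iff_rpow_le (by norm_num) hX'0] at a1
        have a2 := hc.sq _ (le_trans (le_max_right _ _) hK2)
        have a3 := hK _ (le_trans (le_max_left _ _) hK2)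
        linarith
      · have hz' : rn stP t ((D : ℤ), 0) y ≠ (0, 0) := by rw [← hs]; exact hz
        rw [id1_neg (P := rn stP t ((D : ℤ), 0) y = (0, 0)) hz', mul_zero, sub_zero]
        have hW' := hW0 y
        by_cases hnr : (v : ℤ) ^ 47 ≤ |s.1|
        · -- far
          rw [hF]
          simp only
          rw [← hs]
          rw [← hs] at g2 g3
          have h2s : 2 * |s.1| ≤ (v : ℤ) ^ 48 := by
            simp only at g2
            have a1 : |s.1| ≤ |s.1 - D| + |(D : ℤ)| := by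
              have := abs_add_le (s.1 - D) (D : ℤ)
              rwa [sub_add_cancel] at this
            rw [abs_of_nonneg (Int.natCast_nonneg D)] at a1
            have a2 : 4 * ((D : ℕ) : ℤ) ≤ ((v ^ 48 : ℕ) : ℤ) := by exact_mod_cast hD
            have a3 : 4 * (((v ^ 48 / 4 : ℕ)) : ℤ) ≤ ((v ^ 48 : ℕ) : ℤ) := by
              have : 4 * (v ^ 48 / 4) ≤ v ^ 48 := Nat.mul_div_le _ _
              exact_mod_cast this
            have a4 : ((v ^ 48 : ℕ) : ℤ) = (v : ℤ) ^ 48 := by push_cast; rfl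
            rw [← a4]
            linarith
          have := hfar f κ q hc _ hX'0 hX'1 hX'2 s hnr h2s g3
          linarith
        · -- near
          rw [not_le] at hnr
          rw [← hs] at g3
          have a1 := hnear s.1 hnr.le s.2 g3
          have a2 : ns k' (rn stP t ((D : ℤ), 0) y) ≤ 1 / 2 := by rw [← hs]; exact a1
          have a3 : 1 / 2 ≤ W y := by
            rw [hW]
            simp only
            rw [id1_pos hz']
            linarith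
          have a4 : |F y| ≤ 2 := by rw [hF]; exact cg_bd hc.iv hc.iv κ hX'0.le _
          linarith
    · rw [id1_pos hGy]
      have a1 : |F y| ≤ 2 := by rw [hF]; exact cg_bd hc.iv hc.iv κ hX'0.le _
      have a2 : |q * id1 (rn stP t ((D : ℤ), 0) y = (0, 0))| ≤ 1 := by
        rw [abs_mul, abs_of_nonneg hc.q0, abs_of_nonneg (id1_nonneg _)]
        exact mul_le_one₀ hc.q1 (id1_nonneg _) (id1_le_one _)
      have a3 := abs_sub (F y) (q * id1 (rn stP t ((D : ℤ), 0) y = (0, 0)))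
      have := hW0 y
      linarith
  -- the averages
  have hexW : ex t W = ns t ((D : ℤ), 0) - ns (t + k') ((D : ℤ), 0) := by
    rw [hW, ex_add, ex_mul, Pool.Agent.J4H39.ns_tower]
    have : ex t (fun y => id1 (rn stP t ((D : ℤ), 0) y ≠ (0, 0))) = ns t ((D : ℤ), 0) := rfl
    rw [this]; ring
  have hexq : ex t (fun y => q * id1 (rn stP t ((D : ℤ), 0) y = (0, 0))) = q * (1 - ns t ((D : ℤ), 0)) := by
    rw [ex_mul]
    congr 1
    have e1 : ∀ y, id1 (rn stP t ((D : ℤ), 0) y = (0, 0)) = 1 + (-1) * id1 (rn stP t ((D : ℤ), 0) y ≠ (0, 0)) := by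
      intro y
      by_cases hz : rn stP t ((D : ℤ), 0) y = (0, 0)
      · rw [id1_pos hz, id1_neg (fun h => h hz)]; ring
      · rw [id1_neg hz, id1_pos hz]; ring
    rw [ex_congr e1, ex_add, ex_const, ex_mul]
    have : ex t (fun y => id1 (rn stP t ((D : ℤ), 0) y ≠ (0, 0))) = ns t ((D : ℤ), 0) := rfl
    rw [this]; ring
  have hdiff : |ex t F - q * (1 - ns t ((D : ℤ), 0))| ≤ ε / 8 + 3 * pb t (fun y => ¬ G y) + 4 * ex t W := by
    rw [← hexq]
    obtain ⟨Q, hQ⟩ : ∃ Q : ℤ → ℝ, Q = fun y => q * id1 (rn stP t ((D : ℤ), 0) y = (0, 0)) := ⟨_, rfl⟩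
    have hpt : ∀ y, |F y - Q y| ≤ ε / 8 + 3 * id1 (¬ G y) + 4 * W y := by rw [hQ]; exact hpt
    rw [← hQ]
    have e1 : ex t F - ex t Q = ex t (fun y => F y + (-1) * Q y) := by
      rw [ex_add, ex_mul]; ring
    have e2 : ex t (fun y => ε / 8 + 3 * id1 (¬ G y) + 4 * W y) = ε / 8 + 3 * pb t (fun y => ¬ G y) + 4 * ex t W := by
      rw [ex_add, ex_add, ex_const, ex_mul, ex_mul, ← Pool.Agent.J4H39.pb_id1]
    have e3 : ex t (fun y => (-1) * (ε / 8 + 3 * id1 (¬ G y) + 4 * W y)) =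
        -(ε / 8 + 3 * pb t (fun y => ¬ G y) + 4 * ex t W) := by
      rw [ex_mul, e2]; ring
    rw [e1, abs_le]
    constructor
    · rw [← e3]
      apply ex_mono
      intro y
      have := (abs_le.1 (hpt y)).1
      linarith
    · rw [← e2]
      apply ex_mono
      intro y
      have := (abs_le.1 (hpt y)).2
      linarith
  have hexW0 : 0 ≤ ex t W := by
    have : ex t (fun _ => (0 : ℝ)) ≤ ex t W := ex_mono hW0
    rwa [ex_const] at this
  have hCv : C / √v ≤ ε / 4 := by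
    have hsv0 : 0 < √(v : ℝ) := by linarith
    rw [div_le_iff₀ hsv0]
    have a1 : (4 * C / ε) ^ 2 ≤ v := (Nat.le_ceil _).trans (by exact_mod_cast hvC)
    have a2 : 4 * C / ε ≤ √v := Real.le_sqrt_of_sq_le a1
    rw [div_le_iff₀ hε] at a2
    linarith
  have hcc' : |cc f f κ X D 0 - ex t F| ≤ C / √v := by rw [hF]; exact hcc
  have tri := abs_sub_le (cc f f κ X D 0) (ex t F) (q * (1 - ns t ((D : ℤ), 0)))
  rw [hexW] at hdiff hexW0
  linarith

end Pool.Agent.J4H94.PC
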