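import Mathlib
import Pool.Agent.J4H26.PC.Q2
import Pool.Agent.J4H95.PC.Base

set_option autoImplicit false

/-! Project PC, job C2: `S_DIF`. -/

namespace Pool.Agent.J4H94.PC

open Finset Filter Real
open Pool.Agent.J4H39 (T id1 id1_pos id1_neg id1_nonneg id1_le_one)
open Pool.Agent.J4H26.PC
open Pool.Agent.J4H95.PC

theorem ncard_sum (I : Finset ℤ) (J : Finset ℕ) (P : ℤ → ℕ → Prop) :
    ({p : ℤ × ℕ | p.1 ∈ I ∧ p.2 ∈ J ∧ P p.1 p.2}.ncard : ℝ) = ∑ h ∈ J, ∑ n ∈ I, id1 (P n h) := by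
  classical
  have e : {p : ℤ × ℕ | p.1 ∈ I ∧ p.2 ∈ J ∧ P p.1 p.2} = ↑((I ×ˢ J).filter (fun p => P p.1 p.2)) := by
    ext p
    simp [and_assoc]
  rw [e, Set.ncard_coe_finset, card_filter, sum_product_right]
  push_cast
  apply sum_congr rfl
  intro h _
  apply sum_congr rfl
  intro n _
  by_cases hP : P n h
  · rw [id1_pos hP, if_pos hP]
  · rw [id1_neg hP, if_neg hP]

theorem fR_sq (s : ℤ) (R : Set ℤ) (δ : ℝ) {n m : ℤ} (hn : 0 < s * n) (hm : 0 < s * m) :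
    (fR s R δ n - fR s R δ m) ^ 2 = id1 (¬ (n ∈ R ↔ m ∈ R)) := by
  unfold fR
  rw [if_pos hn, if_pos hm]
  by_cases h1 : n ∈ R <;> by_cases h2 : m ∈ R
  · rw [if_pos h1, if_pos h2, id1_neg (by tauto)]; ring
  · rw [if_pos h1, if_neg h2, id1_pos (by tauto)]; ring
  · rw [if_neg h1, if_pos h2, id1_pos (by tauto)]; ring
  · rw [if_neg h1, if_neg h2, id1_neg (by tauto)]; ring

theorem sum_near (N h : ℕ) : ∑ n ∈ Finset.Ico (-(N : ℤ)) 0, id1 (0 ≤ n + (h : ℕ)) ≤ h := by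
  classical
  have e : ∑ n ∈ Finset.Ico (-(N : ℤ)) 0, id1 (0 ≤ n + (h : ℕ)) =
      (((Finset.Ico (-(N : ℤ)) (0 : ℤ)).filter (fun n : ℤ => 0 ≤ n + (h : ℕ))).card : ℝ) := by
    rw [card_filter]
    push_cast
    apply sum_congr rfl
    intro n _
    by_cases hP : 0 ≤ n + (h : ℕ)
    · rw [id1_pos hP, if_pos hP]
    · rw [id1_neg hP, if_neg hP]
  rw [e]
  have hsub : (Finset.Ico (-(N : ℤ)) (0 : ℤ)).filter (fun n : ℤ => 0 ≤ n + (h : ℕ)) ⊆ Finset.Ico (-(h : ℤ)) (0 : ℤ) := by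
    intro n hn
    rw [mem_filter, mem_Ico] at hn
    rw [mem_Ico]
    omega
  have := card_le_card hsub
  rw [Int.card_Ico] at this
  have h2 : (0 - -(h : ℤ)).toNat = h := by omega
  rw [h2] at this
  exact_mod_cast this

/-- the differences at the distance `h` -/
theorem dif_h {s : ℤ} (hs : s = 1 ∨ s = -1) (R : Set ℤ) {δ : ℝ} (hb : ∀ n, |fR s R δ n| ≤ 1) {N h : ℕ} (hh : 1 ≤ h) :
    |∑ n ∈ (Finset.Icc (-(N : ℤ)) N).filter (fun n => 0 < s * n ∧ s * n ≤ N), id1 (¬ (n ∈ R ↔ n + (h : ℕ) ∈ R)) -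
      (2 * ∑ n ∈ Finset.Ico ⌈kS s * N⌉ ⌈kS s * N + N⌉, fR s R δ n ^ 2 -
        2 * ∑ n ∈ Finset.Ico ⌈kS s * N⌉ ⌈kS s * N + N⌉, fR s R δ n * fR s R δ (n + (h : ℕ)))| ≤ 6 * h + 8 := by
  obtain ⟨f, hf⟩ : ∃ f, f = fR s R δ := ⟨_, rfl⟩
  rw [← hf] at hb ⊢
  obtain ⟨F, hF⟩ : ∃ F : ℤ → ℝ, F = fun n => (f n - f (n + (h : ℕ))) ^ 2 := ⟨_, rfl⟩
  have hFb : ∀ n, |F n| ≤ 4 := by
    intro n
    rw [hF]
    simp only
    rw [abs_of_nonneg (sq_nonneg _)]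
    have h1 := abs_le.1 (hb n)
    have h2 := abs_le.1 (hb (n + (h : ℕ)))
    nlinarith [h1.1, h1.2, h2.1, h2.2]
  have hF0 : ∀ n, 0 ≤ F n := fun n => by rw [hF]; exact sq_nonneg _
  have hsqb : ∀ n, |(fun n => f n ^ 2) n| ≤ 1 := by
    intro n
    simp only
    rw [abs_of_nonneg (sq_nonneg _), ← sq_abs]
    exact pow_le_one₀ (abs_nonneg _) (hb n)
  have hh0 : (1 : ℝ) ≤ h := by exact_mod_cast hh
  -- the range
  obtain ⟨a, ha⟩ : ∃ a, a = ⌈kS s * N⌉ := ⟨_, rfl⟩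
  obtain ⟨b, hbb⟩ : ∃ b, b = ⌈kS s * N + N⌉ := ⟨_, rfl⟩
  rw [← ha, ← hbb]
  -- the squares
  have e1 : ∑ n ∈ Finset.Ico a b, F n = ∑ n ∈ Finset.Ico a b, f n ^ 2 + ∑ n ∈ Finset.Ico a b, f (n + (h : ℕ)) ^ 2 -
      2 * ∑ n ∈ Finset.Ico a b, f n * f (n + (h : ℕ)) := by
    rw [mul_sum, ← sum_add_distrib, ← sum_sub_distrib]
    apply sum_congr rfl
    intro n _
    rw [hF]; ring
  have e2 : ∑ n ∈ Finset.Ico a b, f (n + (h : ℕ)) ^ 2 = ∑ n ∈ Finset.Ico (a + (h : ℕ)) (b + (h : ℕ)), f n ^ 2 :=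
    Finset.sum_Ico_add' (fun n => f n ^ 2) a b ((h : ℕ) : ℤ)
  have e3 := sum_Ico_diff (B := 1) (by norm_num) hsqb (a + (h : ℕ)) (b + (h : ℕ)) a b
  have e4 : 1 * (|((a + (h : ℕ) : ℤ) : ℝ) - (a : ℝ)| + |((b + (h : ℕ) : ℤ) : ℝ) - (b : ℝ)|) = 2 * h := by
    push_cast
    have e5 : (a : ℝ) + h - a = h := by ring
    have e6 : (b : ℝ) + h - b = h := by ring
    rw [e5, e6, abs_of_nonneg (by positivity)]; ring
  rw [e4] at e3
  -- the characteristic function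
  have e7 : |∑ n ∈ (Finset.Icc (-(N : ℤ)) N).filter (fun n => 0 < s * n ∧ s * n ≤ N), id1 (¬ (n ∈ R ↔ n + (h : ℕ) ∈ R)) -
      ∑ n ∈ Finset.Ico a b, F n| ≤ 4 * h + 8 := by
    rcases hs with hs | hs
    · have hI : (Finset.Icc (-(N : ℤ)) N).filter (fun n => 0 < s * n ∧ s * n ≤ N) = Finset.Ico (1 : ℤ) (N + 1) := by
        ext n
        rw [mem_filter, mem_Icc, mem_Ico, hs]
        omega
      have hk : kS s = 0 := by unfold kS; rw [if_pos hs]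
      have ha0 : a = 0 := by rw [ha, hk]; simp
      have hb0 : b = N := by rw [hbb, hk]; simp
      rw [hI, ha0, hb0]
      have h1 : ∑ n ∈ Finset.Ico (1 : ℤ) (N + 1), id1 (¬ (n ∈ R ↔ n + (h : ℕ) ∈ R)) = ∑ n ∈ Finset.Ico (1 : ℤ) (N + 1), F n := by
        apply sum_congr rfl
        intro n hn
        rw [mem_Ico] at hn
        rw [hF, hf]
        simp only
        rw [fR_sq s R δ (by rw [hs]; omega) (by rw [hs]; omega)]
      rw [h1]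
      have h2 := sum_Ico_diff (B := 4) (by norm_num) hFb 1 (N + 1) 0 N
      refine h2.trans ?_
      push_cast
      have h3 : (N : ℝ) + 1 - N = 1 := by ring
      rw [h3, sub_zero, abs_one]
      linarith
    · have hI : (Finset.Icc (-(N : ℤ)) N).filter (fun n => 0 < s * n ∧ s * n ≤ N) = Finset.Ico (-(N : ℤ)) 0 := by
        ext n
        rw [mem_filter, mem_Icc, mem_Ico, hs]
        omega
      have hk : kS s = -1 := by
        unfold kS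
        rw [if_neg (by rw [hs]; norm_num)]
      have ha0 : a = -(N : ℤ) := by
        rw [ha, hk, neg_one_mul, Int.ceil_neg, Int.floor_natCast]
      have hb0 : b = 0 := by rw [hbb, hk]; simp
      rw [hI, ha0, hb0, ← sum_sub_distrib]
      refine (abs_sum_le_sum_abs _ _).trans ?_
      have hpt : ∀ n ∈ Finset.Ico (-(N : ℤ)) 0, |id1 (¬ (n ∈ R ↔ n + (h : ℕ) ∈ R)) - F n| ≤ 4 * id1 (0 ≤ n + (h : ℕ)) := by
        intro n hn
        rw [mem_Ico] at hn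
        by_cases hc : 0 ≤ n + (h : ℕ)
        · rw [id1_pos hc]
          have b1 := id1_nonneg (¬ (n ∈ R ↔ n + (h : ℕ) ∈ R))
          have b2 := id1_le_one (¬ (n ∈ R ↔ n + (h : ℕ) ∈ R))
          have b3 := (abs_le.1 (hFb n)).2
          have b4 := hF0 n
          rw [abs_le]
          constructor <;> linarith
        · rw [id1_neg hc, hF, hf]
          simp only
          rw [fR_sq s R δ (by rw [hs]; omega) (by rw [hs]; omega)]
          simp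
      refine (sum_le_sum hpt).trans ?_
      rw [← mul_sum]
      have := sum_near N h
      linarith
  rw [e1, e2] at e7
  rw [abs_le] at e3 e7 ⊢
  constructor <;> linarith [e3.1, e3.2, e7.1, e7.2]

/-- (C2) -/
theorem t_DIF : S_CENT → S_PAIRS → S_DIF := by
  intro hC hP θ hθ0 hθ1 s hs ε hε
  obtain ⟨ψ, hψ, hC⟩ := hC
  have h1 : ∀ᶠ N : ℕ in atTop, ψ N ≤ ε / 8 := by
    have := (tendsto_natCast_atTop_atTop (R := ℝ)).eventually (hψ.eventually (gt_mem_nhds (show (0 : ℝ) < ε / 8 by positivity)))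
    filter_upwards [this] with N hN using hN.le
  have h2 : ∀ᶠ N : ℕ in atTop, (N : ℝ) ^ (-(1 - θ)) ≤ ε / 24 := by
    have := (tendsto_natCast_atTop_atTop (R := ℝ)).eventually
      ((tendsto_rpow_neg_atTop (show 0 < 1 - θ by linarith)).eventually (gt_mem_nhds (show (0 : ℝ) < ε / 24 by positivity)))
    filter_upwards [this] with N hN using hN.le
  filter_upwards [h1, h2, hP ψ hψ θ hθ0 hθ1 (ε / 8) (by positivity), eventually_ge_atTop 2,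
    eventually_ge_atTop ⌈32 / ε⌉₊] with N h1 h2 h3 hN hN2 R hR δ hδ
  obtain ⟨δ', hδ0, hδ1, hlim, hc⟩ := hC s hs R hR
  have hδδ : δ' = δ := tendsto_nhds_unique hlim hδ
  rw [hδδ] at hδ0 hδ1 hc
  have hNR : (2 : ℝ) ≤ N := by exact_mod_cast hN
  have hN0 : (0 : ℝ) < N := by linarith
  obtain ⟨H, hH⟩ : ∃ H, H = ⌊(N : ℝ) ^ θ⌋₊ := ⟨_, rfl⟩
  have hH1 : 1 ≤ H := by
    rw [hH, Nat.one_le_floor_iff]
    exact Real.one_le_rpow (by linarith) hθ0.le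
  have hHR : (1 : ℝ) ≤ H := by exact_mod_cast hH1
  have hHN : (H : ℝ) ≤ (N : ℝ) ^ θ := by rw [hH]; exact Nat.floor_le (by positivity)
  have h3 := h3 _ _ _ hc
  rw [← hH] at h3 ⊢
  obtain ⟨f, hf⟩ : ∃ f, f = fR s R δ := ⟨_, rfl⟩
  have hb := hc.iv.bd
  have hsq := hc.sq N hNR
  -- the number of pairs
  have hset : {p : ℤ × ℕ | (0 < s * p.1 ∧ s * p.1 ≤ N) ∧ (1 ≤ p.2 ∧ p.2 ≤ H) ∧ ¬ (p.1 ∈ R ↔ p.1 + p.2 ∈ R)} =
      {p : ℤ × ℕ | p.1 ∈ (Finset.Icc (-(N : ℤ)) N).filter (fun n => 0 < s * n ∧ s * n ≤ N) ∧ p.2 ∈ Finset.Icc 1 H ∧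
        ¬ (p.1 ∈ R ↔ p.1 + p.2 ∈ R)} := by
    apply Set.ext
    intro p
    show _ ∧ _ ∧ _ ↔ _ ∧ _ ∧ _
    rw [mem_filter, mem_Icc, mem_Icc]
    constructor
    · rintro ⟨q1, q2, q3⟩
      refine ⟨⟨?_, q1⟩, q2, q3⟩
      rcases hs with hs | hs
      · rw [hs] at q1; omega
      · rw [hs] at q1; omega
    · rintro ⟨q1, q2, q3⟩
      exact ⟨q1.2, q2, q3⟩
  have hdif : dif s R N H = (∑ h ∈ Finset.Icc 1 H, ∑ n ∈ (Finset.Icc (-(N : ℤ)) N).filter (fun n => 0 < s * n ∧ s * n ≤ N),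
      id1 (¬ (n ∈ R ↔ n + (h : ℕ) ∈ R))) / (N * H) := by
    unfold dif
    rw [hset, ncard_sum _ _ (fun n h => ¬ (n ∈ R ↔ n + (h : ℕ) ∈ R))]
  obtain ⟨S₂, hS₂⟩ : ∃ S₂, S₂ = ∑ n ∈ Finset.Ico ⌈kS s * N⌉ ⌈kS s * N + N⌉, fR s R δ n ^ 2 := ⟨_, rfl⟩
  obtain ⟨P, hPd⟩ : ∃ P : ℕ → ℝ, P = fun h => ∑ n ∈ Finset.Ico ⌈kS s * N⌉ ⌈kS s * N + N⌉, fR s R δ n * fR s R δ (n + (h : ℕ)) :=
    ⟨_, rfl⟩
  have hsum : |∑ h ∈ Finset.Icc 1 H, ∑ n ∈ (Finset.Icc (-(N : ℤ)) N).filter (fun n => 0 < s * n ∧ s * n ≤ N),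
      id1 (¬ (n ∈ R ↔ n + (h : ℕ) ∈ R)) - (2 * (H * S₂) - 2 * ∑ h ∈ Finset.Icc 1 H, P h)| ≤ H * (6 * H + 8) := by
    have e1 : 2 * (H * S₂) - 2 * ∑ h ∈ Finset.Icc 1 H, P h = ∑ h ∈ Finset.Icc 1 H, (2 * S₂ - 2 * P h) := by
      rw [sum_sub_distrib, ← mul_sum, sum_const, Nat.card_Icc, nsmul_eq_mul]
      have : H + 1 - 1 = H := by omega
      rw [this]
      first
        | (rw [mul_sum]; ring)
        | (rw [mul_sum])
        | ring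
    rw [e1, ← sum_sub_distrib]
    refine (abs_sum_le_sum_abs _ _).trans ?_
    have hpt : ∀ h ∈ Finset.Icc 1 H, |∑ n ∈ (Finset.Icc (-(N : ℤ)) N).filter (fun n => 0 < s * n ∧ s * n ≤ N),
        id1 (¬ (n ∈ R ↔ n + (h : ℕ) ∈ R)) - (2 * S₂ - 2 * P h)| ≤ 6 * H + 8 := by
      intro h hh
      rw [mem_Icc] at hh
      have := dif_h hs R hb (N := N) hh.1
      rw [hS₂, hPd]
      refine this.trans ?_
      have : (h : ℝ) ≤ H := by exact_mod_cast hh.2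
      linarith
    refine (sum_le_sum hpt).trans ?_
    rw [sum_const, Nat.card_Icc, nsmul_eq_mul]
    have : H + 1 - 1 = H := by omega
    rw [this]
  obtain ⟨A, hA⟩ : ∃ A, A = ∑ h ∈ Finset.Icc 1 H, ∑ n ∈ (Finset.Icc (-(N : ℤ)) N).filter (fun n => 0 < s * n ∧ s * n ≤ N),
      id1 (¬ (n ∈ R ↔ n + (h : ℕ) ∈ R)) := ⟨_, rfl⟩
  rw [← hA] at hsum hdif
  obtain ⟨B, hB⟩ : ∃ B, B = ∑ h ∈ Finset.Icc 1 H, P h := ⟨_, rfl⟩
  rw [← hB] at hsum
  have hNH : (0 : ℝ) < N * H := by positivity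
  -- the pair correlation
  have hB' : ∑ n ∈ Finset.Ico ⌈kS s * N⌉ ⌈kS s * N + N⌉, ∑ h ∈ Finset.Icc 1 H, fR s R δ n * fR s R δ (n + (h : ℕ)) = B := by
    rw [hB, hPd, sum_comm]
  rw [hB'] at h3
  have hcc : cc (fR s R δ) (fR s R δ) (kS s) N 0 0 = S₂ / N := by
    unfold cc
    rw [max_eq_left (by linarith), hS₂]
    congr 1
    apply sum_congr rfl
    intro n _
    rw [pow_zero, one_mul, add_zero]; ring
  rw [hcc] at hsq
  -- the final estimate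
  have hfin : |A / (N * H) - (2 * (S₂ / N) - 2 * (B / (N * H)))| ≤ (6 * H + 8) / N := by
    have e1 : A / (N * H) - (2 * (S₂ / N) - 2 * (B / (N * H))) = (A - (2 * (H * S₂) - 2 * B)) / (N * H) := by
      field_simp
    rw [e1, abs_div, abs_of_pos hNH, div_le_div_iff₀ hNH hN0]
    calc |A - (2 * (H * S₂) - 2 * B)| * N ≤ H * (6 * H + 8) * N := mul_le_mul_of_nonneg_right hsum hN0.le
      _ = (6 * H + 8) * (N * H) := by ring
  have hsmall : (6 * H + 8) / (N : ℝ) ≤ ε / 2 := by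
    have e1 : (N : ℝ) ^ θ = N * (N : ℝ) ^ (-(1 - θ)) := by
      nth_rewrite 2 [← Real.rpow_one (N : ℝ)]
      rw [← Real.rpow_add hN0]
      congr 1; ring
    have e2 : (H : ℝ) ≤ N * (ε / 24) := by
      rw [e1] at hHN
      exact hHN.trans (mul_le_mul_of_nonneg_left h2 hN0.le)
    have e3 : 32 / ε ≤ N := (Nat.le_ceil _).trans (by exact_mod_cast hN2)
    rw [div_le_iff₀ hε] at e3
    rw [div_le_iff₀ hN0]
    linarith
  rw [hdif]
  rw [abs_le] at hfin h3 hsq ⊢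
  constructor <;> linarith [hfin.1, hfin.2, h3.1, h3.2, hsq.1, hsq.2]

end Pool.Agent.J4H94.PC
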